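import Pool.Agent.Q62.NSL.Shell

/-!
The differential inequality for the vorticity in a ball.
-/

set_option autoImplicit false

open MeasureTheory Set Metric Filter Topology
open scoped ContDiff ENNReal

namespace Pool.Agent.Q62.NSL

open H459R3.NS W221.NS Pool.Agent.W583.MD

/-- The alternative of Leray. -/
theorem ode {Y Y' : ℝ → ℝ} {s T κ M : ℝ} (hκ : 0 < κ) (hM : 0 < M)
    (hY0 : ∀ t ∈ Ioo s T, 0 ≤ Y t) (hY : ∀ t ∈ Ioo s T, HasDerivAt Y (Y' t) t)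
    (hle : ∀ t ∈ Ioo s T, Y' t ≤ κ * (Y t + M) ^ 3) :
    (∃ K : ℝ, ∃ s' ∈ Ioo s T, ∀ t ∈ Ico s' T, Y t ≤ K) ∨
      ∀ t ∈ Ioo s T, 1 ≤ 2 * κ * (T - t) * (Y t + M) ^ 2 := by
  by_cases hall : ∀ t ∈ Ioo s T, 1 ≤ 2 * κ * (T - t) * (Y t + M) ^ 2
  · exact Or.inr hall
  left
  push Not at hall
  obtain ⟨t0, ht0, hlt⟩ := hall
  have hZ : ∀ t ∈ Ioo s T, 0 < Y t + M := fun t ht => by linarith [hY0 t ht]
  have hq : ∀ t ∈ Ioo s T, HasDerivAt (fun t => -((Y t + M) ^ 2)⁻¹)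
      (2 * Y' t / (Y t + M) ^ 3) t := by
    intro t ht
    have h1 : HasDerivAt (fun t => (Y t + M) ^ 2) (2 * (Y t + M) * Y' t) t := by
      refine (((hY t ht).add_const M).pow 2).congr_deriv ?_
      norm_num
    have h2 := (h1.inv (pow_ne_zero 2 (hZ t ht).ne')).neg
    refine h2.congr_deriv ?_
    have := (hZ t ht).ne'
    field_simp
  have hle' : ∀ t ∈ Ioo s T, 2 * Y' t / (Y t + M) ^ 3 ≤ 2 * κ := by
    intro t ht
    have h0 : 0 < (Y t + M) ^ 3 := pow_pos (hZ t ht) 3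
    rw [div_le_iff₀ h0]
    linarith [hle t ht]
  have hZ0 := hZ t0 ht0
  obtain ⟨η, hη⟩ : ∃ η : ℝ, η = ((Y t0 + M) ^ 2)⁻¹ - 2 * κ * (T - t0) := ⟨_, rfl⟩
  have hη0 : 0 < η := by
    rw [hη, sub_pos, ← one_div, lt_div_iff₀ (pow_pos hZ0 2)]
    exact hlt
  refine ⟨1 + η⁻¹, t0, ht0, fun t ht => ?_⟩
  have ht' : t ∈ Ioo s T := ⟨ht0.1.trans_le ht.1, ht.2⟩
  have k := grow (Y := fun t => -((Y t + M) ^ 2)⁻¹) hq hle' continuousOn_const ht0 ht' ht.1
  rw [intervalIntegral.integral_const, smul_eq_mul] at k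
  have hZt := hZ t ht'
  have k2 : η ≤ ((Y t + M) ^ 2)⁻¹ := by
    have : (t - t0) * (2 * κ) ≤ 2 * κ * (T - t0) := by
      have := ht.2
      nlinarith
    rw [hη]
    linarith
  have k3 : (Y t + M) ^ 2 ≤ η⁻¹ := by
    rw [le_inv_comm₀ (pow_pos hZt 2) hη0]
    exact k2
  nlinarith [sq_nonneg (Y t + M - 1)]

/-- a bound for the derivatives of a cut-off function -/
theorem pd_bound {φ : V → ℝ} (hφ : ContDiff ℝ ∞ φ) (hc : HasCompactSupport φ) :
    ∃ B : ℝ, 0 ≤ B ∧ ∀ (i : Fin 3) (x : V), |pd i φ x| ≤ B := by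
  have h1 : ∀ i : Fin 3, ∃ B : ℝ, ∀ x : V, ‖pd i φ x‖ ≤ B := fun i =>
    (sm_pd hφ i).continuous.bounded_above_of_compact_support (cs_pd hc i)
  choose B hB using h1
  refine ⟨∑ i, |B i|, Finset.sum_nonneg fun i _ => abs_nonneg _, fun i x => ?_⟩
  have h2 := hB i x
  rw [Real.norm_eq_abs] at h2
  exact (h2.trans (le_abs_self _)).trans
    (Finset.single_le_sum (f := fun i => |B i|) (fun j _ => abs_nonneg _) (Finset.mem_univ i))

theorem pd_zero_of {φ : V → ℝ} {x : V} (hx : x ∉ tsupport φ) (j : Fin 3) : pd j φ x = 0 := by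
  have : x ∉ tsupport (pd j φ) := fun h => hx (tsupport_fderiv_apply_subset ℝ _ h)
  exact image_eq_zero_of_notMem_tsupport this

/-- The gradient of the velocity with a cut-off. -/
theorem grad_bound {v : V → V} {φ ψ χ : V → ℝ} {B E : ℝ} (hv : ∀ i, ContDiff ℝ ∞ fun y => v y i)
    (hφ : ContDiff ℝ ∞ φ) (hcφ : HasCompactSupport φ)
    (hψ : ContDiff ℝ ∞ ψ) (hcψ : HasCompactSupport ψ)
    (hχ : ContDiff ℝ ∞ χ) (hcχ : HasCompactSupport χ)
    (hB : ∀ (i : Fin 3) (x : V), |pd i ψ x| ≤ B) (hle : ∀ x, ψ x ^ 2 ≤ φ x ^ 2 + χ x ^ 2)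
    (hdiv : ∀ x ∈ tsupport ψ, dv v x = 0) (hi : Integrable (nsq v)) (hE : ∫ x, nsq v x ≤ E) :
    ∑ j, Dn (fun y => ψ y * v y j) ≤
      Yf φ (fun i y => v y i) + Yf χ (fun i y => v y i) + 15 * B ^ 2 * E := by
  have hB0 : 0 ≤ B := (abs_nonneg _).trans (hB 0 0)
  have hV : ∀ b, ContDiff ℝ ∞ fun y => ψ y * v y b := fun b => hψ.mul (hv b)
  have hcV : ∀ b, HasCompactSupport fun y => ψ y * v y b := fun b => hcψ.mul_right
  have k := divcurl (v := fun b y => ψ y * v y b) hV hcV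
  have e0 : ∑ j, Dn (fun y => ψ y * v y j) =
      ∫ x, ∑ b, ∑ a, pd a (fun y => ψ y * v y b) x ^ 2 := by
    unfold Dn
    rw [integral_finsetSum]
    exact fun b _ => int_Dn (hV b) (hcV b)
  rw [e0, k]
  have hsc := fun a b => sm_crl (v := fun i y => v y i) hv a b
  have hd : ∀ a b x, pd a (fun y => ψ y * v y b) x =
      ψ x * pd a (fun y => v y b) x + pd a ψ x * v x b := fun a b x => pd_mul' hψ (hv b) a x
  have hpt : ∀ x, (1 / 2) * (∑ a, ∑ b, crl (fun b y => ψ y * v y b) a b x ^ 2)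
      + (∑ a, pd a (fun y => ψ y * v y a) x) ^ 2 ≤
      (∑ a, ∑ b, (φ x * crl (fun i y => v y i) a b x) ^ 2)
      + (∑ a, ∑ b, (χ x * crl (fun i y => v y i) a b x) ^ 2) + 15 * B ^ 2 * nsq v x := by
    intro x
    have hB2 : ∀ a, pd a ψ x ^ 2 ≤ B ^ 2 := fun a =>
      sq_le_sq' (by linarith [(abs_le.1 (hB a x)).1]) (abs_le.1 (hB a x)).2
    have h1 : ∀ a b, crl (fun b y => ψ y * v y b) a b x ^ 2 ≤
        2 * ((φ x * crl (fun i y => v y i) a b x) ^ 2 + (χ x * crl (fun i y => v y i) a b x) ^ 2)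
        + 4 * B ^ 2 * (v x b ^ 2 + v x a ^ 2) := by
      intro a b
      have e1 : crl (fun b y => ψ y * v y b) a b x = ψ x * crl (fun i y => v y i) a b x
          + (pd a ψ x * v x b - pd b ψ x * v x a) := by
        unfold crl
        rw [hd, hd]
        ring
      rw [e1]
      have q1 : (ψ x * crl (fun i y => v y i) a b x) ^ 2 ≤
          (φ x * crl (fun i y => v y i) a b x) ^ 2 + (χ x * crl (fun i y => v y i) a b x) ^ 2 := by
        have := mul_le_mul_of_nonneg_right (hle x) (sq_nonneg (crl (fun i y => v y i) a b x))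
        linarith
      have q2 : (pd a ψ x * v x b - pd b ψ x * v x a) ^ 2 ≤ 2 * B ^ 2 * (v x b ^ 2 + v x a ^ 2) := by
        have r1 := mul_le_mul_of_nonneg_right (hB2 a) (sq_nonneg (v x b))
        have r2 := mul_le_mul_of_nonneg_right (hB2 b) (sq_nonneg (v x a))
        nlinarith [sq_nonneg (pd a ψ x * v x b + pd b ψ x * v x a)]
      nlinarith [sq_nonneg (ψ x * crl (fun i y => v y i) a b x
        - (pd a ψ x * v x b - pd b ψ x * v x a))]
    have h2 : (∑ a, pd a (fun y => ψ y * v y a) x) ^ 2 ≤ 3 * B ^ 2 * nsq v x := by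
      have e2 : ∑ a, pd a (fun y => ψ y * v y a) x = ∑ a, pd a ψ x * v x a := by
        by_cases hx : x ∈ tsupport ψ
        · have e3 : ∑ a, pd a (fun y => v y a) x = 0 := hdiv x hx
          simp only [hd, Finset.sum_add_distrib, ← Finset.mul_sum, e3, mul_zero, zero_add]
        · have e4 : ψ x = 0 := image_eq_zero_of_notMem_tsupport hx
          simp only [hd, e4, zero_mul, zero_add]
      rw [e2]
      have r := fun a => mul_le_mul_of_nonneg_right (hB2 a) (sq_nonneg (v x a))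
      have r0 := r 0
      have r1 := r 1
      have r2 := r 2
      unfold nsq
      simp only [Fin.sum_univ_three]
      nlinarith [sq_nonneg (pd 0 ψ x * v x 0 - pd 1 ψ x * v x 1),
        sq_nonneg (pd 0 ψ x * v x 0 - pd 2 ψ x * v x 2),
        sq_nonneg (pd 1 ψ x * v x 1 - pd 2 ψ x * v x 2)]
    have h3 := Finset.sum_le_sum fun a (_ : a ∈ Finset.univ) => Finset.sum_le_sum
      fun b (_ : b ∈ Finset.univ) => h1 a b
    have e5 : ∑ a, ∑ b, (2 * ((φ x * crl (fun i y => v y i) a b x) ^ 2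
        + (χ x * crl (fun i y => v y i) a b x) ^ 2) + 4 * B ^ 2 * (v x b ^ 2 + v x a ^ 2)) =
        2 * ((∑ a, ∑ b, (φ x * crl (fun i y => v y i) a b x) ^ 2)
        + (∑ a, ∑ b, (χ x * crl (fun i y => v y i) a b x) ^ 2)) + 24 * B ^ 2 * nsq v x := by
      unfold nsq
      simp only [Fin.sum_univ_three]
      ring
    linarith
  have i1 := int_sum2 (v := fun i y => v y i) hφ.continuous hcφ hv
  have i2 := int_sum2 (v := fun i y => v y i) hχ.continuous hcχ hv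
  have i3 : Integrable fun x => 15 * B ^ 2 * nsq v x := hi.const_mul _
  have i4 : Integrable fun x => (∑ a, ∑ b, (φ x * crl (fun i y => v y i) a b x) ^ 2)
      + (∑ a, ∑ b, (χ x * crl (fun i y => v y i) a b x) ^ 2) := i1.add i2
  refine (integral_mono_of_nonneg (Eventually.of_forall fun x => by positivity)
    (i4.add i3) (Eventually.of_forall hpt)).trans ?_
  have e6 : ∫ x, ((∑ a, ∑ b, (φ x * crl (fun i y => v y i) a b x) ^ 2)
      + (∑ a, ∑ b, (χ x * crl (fun i y => v y i) a b x) ^ 2) + 15 * B ^ 2 * nsq v x) =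
      Yf φ (fun i y => v y i) + Yf χ (fun i y => v y i) + 15 * B ^ 2 * ∫ x, nsq v x := by
    rw [integral_add i4 i3, integral_add i1 i2, integral_const_mul]
    rfl
  have h7 : (15 : ℝ) * B ^ 2 * ∫ x, nsq v x ≤ 15 * B ^ 2 * E :=
    mul_le_mul_of_nonneg_left hE (by positivity)
  calc _ = _ := e6
    _ ≤ _ := by linarith

/-- The differential inequality. -/
theorem diff_ineq : ∃ κ : ℝ, 0 < κ ∧ ∀ (T κ' E F : ℝ) (O : Set V) (u : ℝ → V → V)
    (p : ℝ → V → ℝ), LSol3 T κ' E F O u p → ∀ (φ ψ χ : V → ℝ) (a : V) (ρ s M G0 : ℝ),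
    ContDiff ℝ ∞ φ → HasCompactSupport φ → ContDiff ℝ ∞ ψ → HasCompactSupport ψ →
    ContDiff ℝ ∞ χ → HasCompactSupport χ → ball a ρ ⊆ O → tsupport φ ⊆ ball a ρ →
    tsupport ψ ⊆ ball a ρ → (∀ x, |φ x| ≤ 1) → (∀ x, φ x = 0 ∨ ψ x = 1) →
    (∀ x, ψ x ^ 2 ≤ φ x ^ 2 + χ x ^ 2) → s ∈ Ico 0 T →
    (∀ x, (∀ j, pd j φ x = 0) ∨ (χ x = 1 ∧ ∀ t ∈ Ioo s T, ∀ j, |u t x j| ≤ M)) →
    (∀ t ∈ Ioo s T, Yf χ (cp u t) ≤ G0) →
    ∃ M' : ℝ, 0 < M' ∧ ∀ t ∈ Ioo s T, ∃ Y' : ℝ, HasDerivAt (fun t => Yf φ (cp u t)) Y' t ∧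
      Y' ≤ κ * (Yf φ (cp u t) + M') ^ 3 := by
  obtain ⟨K, hK, hgn⟩ := gn
  refine ⟨2916 * K ^ 2 + 1, by positivity, ?_⟩
  intro T κ' E F O u p hL φ ψ χ a ρ s M G0 hφ hcφ hψ hcψ hχ hcχ hO htφ htψ h1 hφψ hle hs hMx hG0
  obtain ⟨Bφ, hBφ0, hBφ⟩ := pd_bound hφ hcφ
  obtain ⟨Bψ, hBψ0, hBψ⟩ := pd_bound hψ hcψ
  have hui := js_of hL.smooth_u
  have hTs : Ioo s T ⊆ Ioo 0 T := Ioo_subset_Ioo_left hs.1
  obtain ⟨M1, hM1⟩ : ∃ M1 : ℝ, M1 = |G0| + 15 * Bψ ^ 2 * E ^ 2 := ⟨_, rfl⟩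
  obtain ⟨C3, hC3⟩ : ∃ C3 : ℝ, C3 = (6 * Bφ ^ 2 + 12 * Bφ * |M|) * |G0|
    + 18 * (volume.real (ball a ρ) * F ^ 2) := ⟨_, rfl⟩
  have hM10 : 0 ≤ M1 := by rw [hM1]; positivity
  have hC30 : 0 ≤ C3 := by rw [hC3]; positivity
  refine ⟨M1 + C3 + 2, by positivity, fun t ht => ?_⟩
  have ht0 := hTs ht
  have hv : ∀ i, ContDiff ℝ ∞ (cp u t i) := fun i => (hui i).slice ht0
  have hτ : ∀ i, ContDiff ℝ ∞ (tu u t i) := fun i => (hui i).td.slice ht0
  have hq : ContDiff ℝ ∞ (p t) := slice hL.smooth_p ht0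
  refine ⟨_, Y_hd hui hL.smooth_p hφ hcφ ht0, ?_⟩
  -- notation
  obtain ⟨A, hA⟩ : ∃ A : Fin 3 → Fin 3 → ℝ, A = fun a b =>
    ∫ x, (φ x * crl (cp u t) a b x) ^ 2 := ⟨_, rfl⟩
  obtain ⟨D, hD⟩ : ∃ D : Fin 3 → Fin 3 → ℝ, D = fun a b =>
    Dn (fun y => φ y * crl (cp u t) a b y) := ⟨_, rfl⟩
  obtain ⟨G, hG⟩ : ∃ G : Fin 3 → ℝ, G = fun j => Dn (fun y => ψ y * u t y j) := ⟨_, rfl⟩
  obtain ⟨Y, hY⟩ : ∃ Y : ℝ, Y = Yf φ (cp u t) := ⟨_, rfl⟩
  have hA0 : ∀ a b, 0 ≤ A a b := fun a b => by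
    rw [hA]; exact integral_nonneg fun x => sq_nonneg _
  have hD0 : ∀ a b, 0 ≤ D a b := fun a b => by rw [hD]; exact Dn_nonneg _
  have hG0' : ∀ j, 0 ≤ G j := fun j => by rw [hG]; exact Dn_nonneg _
  have hW : ∀ a b, ContDiff ℝ ∞ (fun y => φ y * crl (cp u t) a b y) := fun a b =>
    hφ.mul (sm_crl hv a b)
  have hcW : ∀ a b, HasCompactSupport (fun y => φ y * crl (cp u t) a b y) := fun a b =>
    hcφ.mul_right
  have hψv : ∀ j, ContDiff ℝ ∞ (fun y => ψ y * u t y j) := fun j => hψ.mul (hv j)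
  have hcψv : ∀ j, HasCompactSupport (fun y => ψ y * u t y j) := fun j => hcψ.mul_right
  have hiA : ∀ a b, Integrable fun x => (φ x * crl (cp u t) a b x) ^ 2 := fun a b =>
    int_pow (hW a b).continuous (hcW a b) two_ne_zero
  have hYA : Y = ∑ a, ∑ b, A a b := by
    rw [hY, hA]
    unfold Yf
    rw [integral_finsetSum _ fun a _ => integrable_finsetSum _ fun b _ => hiA a b]
    exact Finset.sum_congr rfl fun a _ => integral_finsetSum _ fun b _ => hiA a b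
  have hiD : ∀ a b, Integrable fun x => ∑ j, pd j (fun y => φ y * crl (cp u t) a b y) x ^ 2 :=
    fun a b => int_Dn (hW a b) (hcW a b)
  have hDD : ∫ x, ∑ a, ∑ b, ∑ j, pd j (fun y => φ y * crl (cp u t) a b y) x ^ 2 =
      ∑ a, ∑ b, D a b := by
    rw [hD, integral_finsetSum _ fun a _ => integrable_finsetSum _ fun b _ => hiD a b]
    exact Finset.sum_congr rfl fun a _ => integral_finsetSum _ fun b _ => hiD a b
  have hiQ : ∀ j b, Integrable fun x => (ψ x * u t x j) ^ 2 * (φ x * crl (cp u t) j b x) ^ 2 := by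
    intro j b
    have c1 : Continuous fun x => (ψ x * u t x j) ^ 2 * (φ x * crl (cp u t) j b x) ^ 2 :=
      ((hψv j).continuous.pow 2).mul ((hW j b).continuous.pow 2)
    have c2 : HasCompactSupport fun x => (φ x * crl (cp u t) j b x) ^ 2 :=
      cs_pow (hcW j b) two_ne_zero
    exact int_cs c1 c2.mul_left
  have hiQQ : Integrable fun x => ∑ j, ∑ b, (ψ x * u t x j) ^ 2 *
      (φ x * crl (cp u t) j b x) ^ 2 :=
    integrable_finsetSum _ fun j _ => integrable_finsetSum _ fun b _ => hiQ j b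
  have hiDD : Integrable fun x => ∑ a, ∑ b, ∑ j, pd j (fun y => φ y * crl (cp u t) a b y) x ^ 2 :=
    integrable_finsetSum _ fun a _ => integrable_finsetSum _ fun b _ => hiD a b
  have hiY : Integrable fun x => ∑ a, ∑ b, (φ x * crl (cp u t) a b x) ^ 2 :=
    int_sum2 hφ.continuous hcφ hv
  have hiχ : Integrable fun x => ∑ a, ∑ b, (χ x * crl (cp u t) a b x) ^ 2 :=
    int_sum2 hχ.continuous hcχ hv
  have hiF : Integrable fun x => (ball a ρ).indicator (fun _ => F ^ 2) x :=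
    (integrable_indicator_iff measurableSet_ball).2
      (integrableOn_const (measure_ball_lt_top.ne))
  have hF0 : ∫ x, (ball a ρ).indicator (fun _ => F ^ 2) x = volume.real (ball a ρ) * F ^ 2 := by
    rw [integral_indicator measurableSet_ball, setIntegral_const, smul_eq_mul]
  -- the pointwise bound
  have hpt : ∀ x, Big φ (cp u t) (Rf (cp u t) (tu u t) (p t)) x ≤
      -(∑ a, ∑ b, ∑ j, pd j (fun y => φ y * crl (cp u t) a b y) x ^ 2)
      + 36 * (∑ j, ∑ b, (ψ x * u t x j) ^ 2 * (φ x * crl (cp u t) j b x) ^ 2)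
      + (6 * Bφ ^ 2 + 12 * Bφ * |M|) * (∑ a, ∑ b, (χ x * crl (cp u t) a b x) ^ 2)
      + 2 * (∑ a, ∑ b, (φ x * crl (cp u t) a b x) ^ 2)
      + 18 * (ball a ρ).indicator (fun _ => F ^ 2) x := by
    intro x
    refine bound_b (w := fun a b => crl (cp u t) a b x)
      (r := fun a b => pd a (Rf (cp u t) (tu u t) (p t) b) x)
      (dW := fun a b j => pd j (fun y => φ y * crl (cp u t) a b y) x)
      (dφ := fun j => pd j φ x) (vv := fun j => u t x j) (f := φ x) (ψ := ψ x) (M := |M|)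
      (B := Bφ) (fun j => hBφ j x) (abs_nonneg M) (h1 x) (hφψ x) (by positivity) ?_ ?_
    · rcases hMx x with h | ⟨h, h'⟩
      · exact Or.inl h
      · refine Or.inr ⟨fun j => (h' t ht j).trans (le_abs_self M), ?_⟩
        rw [h]
        simp only [one_mul]
    · intro c b
      by_cases hx : x ∈ ball a ρ
      · rw [indicator_of_mem hx]
        have k1 := (hL.force t ht0 x (hO hx) b).2.1 c
        have k2 : |pd c (Rf (cp u t) (tu u t) (p t) b) x| ≤ F := k1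
        have k3 : |φ x * pd c (Rf (cp u t) (tu u t) (p t) b) x| ≤ F := by
          rw [abs_mul]
          exact (mul_le_of_le_one_left (abs_nonneg _) (h1 x)).trans k2
        exact sq_le_sq' (by linarith [(abs_le.1 k3).1]) (abs_le.1 k3).2
      · rw [indicator_of_notMem hx]
        have : φ x = 0 := image_eq_zero_of_notMem_tsupport fun h => hx (htφ h)
        rw [this]
        norm_num
  have hiDDn : Integrable fun x =>
      -(∑ a, ∑ b, ∑ j, pd j (fun y => φ y * crl (cp u t) a b y) x ^ 2) := hiDD.neg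
  have hi1 : Integrable fun x =>
      -(∑ a, ∑ b, ∑ j, pd j (fun y => φ y * crl (cp u t) a b y) x ^ 2)
      + 36 * (∑ j, ∑ b, (ψ x * u t x j) ^ 2 * (φ x * crl (cp u t) j b x) ^ 2) :=
    hiDDn.add (hiQQ.const_mul 36)
  have hi2 : Integrable fun x =>
      -(∑ a, ∑ b, ∑ j, pd j (fun y => φ y * crl (cp u t) a b y) x ^ 2)
      + 36 * (∑ j, ∑ b, (ψ x * u t x j) ^ 2 * (φ x * crl (cp u t) j b x) ^ 2)
      + (6 * Bφ ^ 2 + 12 * Bφ * |M|) * (∑ a, ∑ b, (χ x * crl (cp u t) a b x) ^ 2) :=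
    hi1.add (hiχ.const_mul _)
  have hi3 : Integrable fun x =>
      -(∑ a, ∑ b, ∑ j, pd j (fun y => φ y * crl (cp u t) a b y) x ^ 2)
      + 36 * (∑ j, ∑ b, (ψ x * u t x j) ^ 2 * (φ x * crl (cp u t) j b x) ^ 2)
      + (6 * Bφ ^ 2 + 12 * Bφ * |M|) * (∑ a, ∑ b, (χ x * crl (cp u t) a b x) ^ 2)
      + 2 * (∑ a, ∑ b, (φ x * crl (cp u t) a b x) ^ 2) := hi2.add (hiY.const_mul _)
  have hint : ∫ x, Big φ (cp u t) (Rf (cp u t) (tu u t) (p t)) x ≤
      -(∑ a, ∑ b, D a b)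
      + 36 * (∫ x, ∑ j, ∑ b, (ψ x * u t x j) ^ 2 * (φ x * crl (cp u t) j b x) ^ 2)
      + (6 * Bφ ^ 2 + 12 * Bφ * |M|) * Yf χ (cp u t) + 2 * Y
      + 18 * (volume.real (ball a ρ) * F ^ 2) := by
    refine (integral_mono (Big_int hφ hcφ hv hτ hq).1 (hi3.add (hiF.const_mul 18)) hpt).trans
      (le_of_eq ?_)
    change ∫ x, (-(∑ a, ∑ b, ∑ j, pd j (fun y => φ y * crl (cp u t) a b y) x ^ 2)
      + 36 * (∑ j, ∑ b, (ψ x * u t x j) ^ 2 * (φ x * crl (cp u t) j b x) ^ 2)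
      + (6 * Bφ ^ 2 + 12 * Bφ * |M|) * (∑ a, ∑ b, (χ x * crl (cp u t) a b x) ^ 2)
      + 2 * (∑ a, ∑ b, (φ x * crl (cp u t) a b x) ^ 2)
      + 18 * (ball a ρ).indicator (fun _ => F ^ 2) x) = _
    rw [integral_add hi3 (hiF.const_mul 18), integral_add hi2 (hiY.const_mul 2),
      integral_add hi1 (hiχ.const_mul _), integral_add hiDDn (hiQQ.const_mul 36),
      integral_neg, integral_const_mul, integral_const_mul, integral_const_mul,
      integral_const_mul, hDD, hF0, hY]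
    rfl
  -- the cubic term
  have hcub : 36 * (∫ x, ∑ j, ∑ b, (ψ x * u t x j) ^ 2 * (φ x * crl (cp u t) j b x) ^ 2) ≤
      (∑ a, ∑ b, D a b) + 2916 * K ^ 2 * (∑ j, G j) ^ 2 * Y := by
    obtain ⟨DD, hDDe⟩ : ∃ DD, DD = ∑ a, ∑ b, D a b := ⟨_, rfl⟩
    obtain ⟨GG, hGGe⟩ : ∃ GG, GG = ∑ j, G j := ⟨_, rfl⟩
    have hDD0 : 0 ≤ DD := by
      rw [hDDe]; exact Finset.sum_nonneg fun a _ => Finset.sum_nonneg fun b _ => hD0 a b
    have hGG0 : 0 ≤ GG := by rw [hGGe]; exact Finset.sum_nonneg fun j _ => hG0' j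
    have hY0 : 0 ≤ Y := by
      rw [hYA]; exact Finset.sum_nonneg fun a _ => Finset.sum_nonneg fun b _ => hA0 a b
    have l1 : ∀ j b, A j b ≤ Y := by
      intro j b
      rw [hYA]
      exact (Finset.single_le_sum (f := fun b => A j b) (fun b _ => hA0 j b)
        (Finset.mem_univ b)).trans (Finset.single_le_sum (f := fun j => ∑ b, A j b)
        (fun j _ => Finset.sum_nonneg fun b _ => hA0 j b) (Finset.mem_univ j))
    have l2 : ∀ j b, D j b ≤ DD := by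
      intro j b
      rw [hDDe]
      exact (Finset.single_le_sum (f := fun b => D j b) (fun b _ => hD0 j b)
        (Finset.mem_univ b)).trans (Finset.single_le_sum (f := fun j => ∑ b, D j b)
        (fun j _ => Finset.sum_nonneg fun b _ => hD0 j b) (Finset.mem_univ j))
    have l3 : ∫ x, ∑ j, ∑ b, (ψ x * u t x j) ^ 2 * (φ x * crl (cp u t) j b x) ^ 2 ≤
        ∑ j : Fin 3, ∑ _b : Fin 3, K * G j * √(Y * DD) := by
      rw [integral_finsetSum _ fun j _ => integrable_finsetSum _ fun b _ => hiQ j b]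
      refine Finset.sum_le_sum fun j _ => ?_
      rw [integral_finsetSum _ fun b _ => hiQ j b]
      refine Finset.sum_le_sum fun b _ => ?_
      have m1 := hgn _ _ (hψv j) (hW j b) (hcψv j) (hcW j b)
      refine m1.trans ?_
      have m2 : (∫ x, (φ x * crl (cp u t) j b x) ^ 2) *
          Dn (fun y => φ y * crl (cp u t) j b y) ≤ Y * DD := by
        have q1 : (∫ x, (φ x * crl (cp u t) j b x) ^ 2) ≤ Y := by
          have := l1 j b
          rwa [hA] at this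
        have q2 : Dn (fun y => φ y * crl (cp u t) j b y) ≤ DD := by
          have := l2 j b
          rwa [hD] at this
        exact mul_le_mul q1 q2 (Dn_nonneg _) hY0
      have m3 : 0 ≤ K * Dn (fun y => ψ y * u t y j) := mul_nonneg hK (Dn_nonneg _)
      have m4 := mul_le_mul_of_nonneg_left (Real.sqrt_le_sqrt m2) m3
      rw [hG]
      exact m4
    have l4 : ∑ j : Fin 3, ∑ _b : Fin 3, K * G j * √(Y * DD) = 3 * K * GG * √(Y * DD) := by
      rw [hGGe]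
      simp only [Fin.sum_univ_three]
      ring
    rw [l4] at l3
    have l5 : √(Y * DD) ^ 2 = Y * DD := Real.sq_sqrt (by positivity)
    have l6 : 108 * K * GG * √(Y * DD) ≤ DD + 2916 * K ^ 2 * GG ^ 2 * Y := by
      have e1 : √(Y * DD) = √Y * √DD := Real.sqrt_mul hY0 DD
      have e2 : √Y ^ 2 = Y := Real.sq_sqrt hY0
      have e3 : √DD ^ 2 = DD := Real.sq_sqrt hDD0
      have e4 : 108 * K * GG * √(Y * DD) ≤ √DD ^ 2 + 2916 * K ^ 2 * GG ^ 2 * √Y ^ 2 := by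
        rw [e1]
        nlinarith [sq_nonneg (√DD - 54 * K * GG * √Y)]
      rwa [e2, e3] at e4
    rw [← hDDe, ← hGGe]
    linarith
  -- the gradient
  have hgr : ∑ j, G j ≤ Y + M1 := by
    have k1 := grad_bound (v := u t) hv hφ hcφ hψ hcψ hχ hcχ hBψ hle
      (fun x hx => hL.divfree t ht0 x (hO (htψ hx))) (hL.en_int t ht0) (hL.en t ht0)
    have k2 := hG0 t ht
    have k3 : Yf χ (fun i y => u t y i) ≤ |G0| := k2.trans (le_abs_self G0)
    rw [hG, hY, hM1]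
    have k4 : Yf φ (fun i y => u t y i) = Yf φ (cp u t) := rfl
    rw [k4] at k1
    linarith
  have hY0 : 0 ≤ Y := by
    rw [hYA]; exact Finset.sum_nonneg fun a _ => Finset.sum_nonneg fun b _ => hA0 a b
  have hGG0 : 0 ≤ ∑ j, G j := Finset.sum_nonneg fun j _ => hG0' j
  have hχ0 : (6 * Bφ ^ 2 + 12 * Bφ * |M|) * Yf χ (cp u t) ≤
      (6 * Bφ ^ 2 + 12 * Bφ * |M|) * |G0| :=
    mul_le_mul_of_nonneg_left ((hG0 t ht).trans (le_abs_self G0)) (by positivity)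
  rw [← hY]
  have f1 : ∫ x, Big φ (cp u t) (Rf (cp u t) (tu u t) (p t)) x ≤
      2916 * K ^ 2 * (∑ j, G j) ^ 2 * Y + 2 * Y + C3 := by
    rw [hC3]
    linarith
  refine f1.trans ?_
  have f2 : (∑ j, G j) ^ 2 * Y ≤ (Y + (M1 + C3 + 2)) ^ 3 := by
    have g1 : (∑ j, G j) ^ 2 ≤ (Y + (M1 + C3 + 2)) ^ 2 :=
      pow_le_pow_left₀ hGG0 (by linarith) 2
    calc (∑ j, G j) ^ 2 * Y ≤ (Y + (M1 + C3 + 2)) ^ 2 * (Y + (M1 + C3 + 2)) := by
          refine mul_le_mul g1 (by linarith) hY0 (by positivity)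
      _ = _ := by ring
  have f3 : 2 * Y + C3 ≤ (Y + (M1 + C3 + 2)) ^ 3 := by
    obtain ⟨z, hz⟩ : ∃ z, z = Y + (M1 + C3 + 2) := ⟨_, rfl⟩
    have hz2 : 2 ≤ z := by rw [hz]; linarith
    have hzz : 2 * Y + C3 ≤ 2 * z := by rw [hz]; linarith
    rw [← hz]
    nlinarith [mul_nonneg (by linarith : 0 ≤ z) (by nlinarith : 0 ≤ z ^ 2 - 4)]
  have f4 := mul_le_mul_of_nonneg_left f2 (by positivity : (0 : ℝ) ≤ 2916 * K ^ 2)
  linarith

end Pool.Agent.Q62.NSL
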