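import Pool.Agent.W583.MD.EN

/-!
Calculus for smooth functions on a time interval times the space.
-/

set_option autoImplicit false

open MeasureTheory Set Metric Filter Topology
open scoped ContDiff

namespace Pool.Agent.Q62.NSL

open H459R3.NS W221.NS Pool.Agent.W583.MD

/-- smooth on the time interval `(α, β)` times the space -/
def Js (α β : ℝ) (F : ℝ → V → ℝ) : Prop :=
  ContDiffOn ℝ ∞ (fun z : ℝ × V => F z.1 z.2) (Ioo α β ×ˢ univ)

section

variable {α β : ℝ} {F G : ℝ → V → ℝ}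

theorem Js.slice (hF : Js α β F) {t : ℝ} (ht : t ∈ Ioo α β) : ContDiff ℝ ∞ (F t) :=
  Pool.Agent.W583.MD.slice hF ht

theorem Js.mul (hF : Js α β F) (hG : Js α β G) : Js α β (fun t x => F t x * G t x) :=
  ContDiffOn.mul hF hG

theorem Js.add (hF : Js α β F) (hG : Js α β G) : Js α β (fun t x => F t x + G t x) :=
  ContDiffOn.add hF hG

theorem Js.sub (hF : Js α β F) (hG : Js α β G) : Js α β (fun t x => F t x - G t x) :=
  ContDiffOn.sub hF hG

theorem Js.sum {ι : Type*} {s : Finset ι} {F : ι → ℝ → V → ℝ} (hF : ∀ i ∈ s, Js α β (F i)) :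
    Js α β (fun t x => ∑ i ∈ s, F i t x) :=
  ContDiffOn.sum (f := fun i (z : ℝ × V) => F i z.1 z.2) hF

theorem Js.pow (hF : Js α β F) (n : ℕ) : Js α β (fun t x => F t x ^ n) :=
  ContDiffOn.pow hF n

theorem Js.of_space {f : V → ℝ} (hf : ContDiff ℝ ∞ f) : Js α β (fun _ x => f x) :=
  (hf.comp contDiff_snd).contDiffOn

theorem Js.pd_eq (hF : Js α β F) {t : ℝ} (ht : t ∈ Ioo α β) (x : V) (j : Fin 3) :
    pd j (F t) x = fderiv ℝ (fun z : ℝ × V => F z.1 z.2) (t, x) (0, Pi.single j 1) := by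
  have hmem : Ioo α β ×ˢ (univ : Set V) ∈ 𝓝 (t, x) :=
    prod_mem_nhds (Ioo_mem_nhds ht.1 ht.2) Filter.univ_mem
  have h1 : DifferentiableAt ℝ (fun z : ℝ × V => F z.1 z.2) (t, x) :=
    (hF.contDiffAt hmem).differentiableAt (by norm_cast)
  have h2 : HasFDerivAt (fun y : V => ((t, y) : ℝ × V)) (ContinuousLinearMap.inr ℝ ℝ V) x :=
    hasFDerivAt_prodMk_right t x
  have h3 : HasFDerivAt (fun y : V => F t y) _ x :=
    HasFDerivAt.comp (g := fun z : ℝ × V => F z.1 z.2) x h1.hasFDerivAt h2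
  unfold pd
  have h4 : fderiv ℝ (F t) x = _ := h3.fderiv
  rw [h4]
  simp

theorem Js.pd (hF : Js α β F) (j : Fin 3) : Js α β (fun t => pd j (F t)) := by
  have hO : IsOpen (Ioo α β ×ˢ (univ : Set V)) := isOpen_Ioo.prod isOpen_univ
  have h1 : ContDiffOn ℝ ∞ (fderiv ℝ (fun z : ℝ × V => F z.1 z.2)) (Ioo α β ×ˢ univ) :=
    ContDiffOn.fderiv_of_isOpen hF hO (by norm_cast)
  have h2 : ContDiffOn ℝ ∞ (fun z : ℝ × V => fderiv ℝ (fun z : ℝ × V => F z.1 z.2) z
      (0, Pi.single j 1)) (Ioo α β ×ˢ univ) := h1.clm_apply contDiffOn_const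
  exact h2.congr fun z hz => hF.pd_eq hz.1 z.2 j

/-- the time derivative -/
noncomputable def td (F : ℝ → V → ℝ) (t : ℝ) (x : V) : ℝ := deriv (fun s => F s x) t

theorem Js.hd (hF : Js α β F) {t : ℝ} (ht : t ∈ Ioo α β) (x : V) :
    HasDerivAt (fun s => F s x) (td F t x) t := by
  have h := hd_slice hF ht x
  unfold td
  rwa [h.deriv]

theorem Js.td_eq (hF : Js α β F) {t : ℝ} (ht : t ∈ Ioo α β) (x : V) :
    td F t x = fderiv ℝ (fun z : ℝ × V => F z.1 z.2) (t, x) (1, 0) :=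
  (hd_slice hF ht x).deriv

theorem Js.td (hF : Js α β F) : Js α β (td F) := by
  have hO : IsOpen (Ioo α β ×ˢ (univ : Set V)) := isOpen_Ioo.prod isOpen_univ
  have h1 : ContDiffOn ℝ ∞ (fderiv ℝ (fun z : ℝ × V => F z.1 z.2)) (Ioo α β ×ˢ univ) :=
    ContDiffOn.fderiv_of_isOpen hF hO (by norm_cast)
  have h2 : ContDiffOn ℝ ∞ (fun z : ℝ × V => fderiv ℝ (fun z : ℝ × V => F z.1 z.2) z
      (1, 0)) (Ioo α β ×ˢ univ) := h1.clm_apply contDiffOn_const
  exact h2.congr fun z hz => hF.td_eq hz.1 z.2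

/-- Mixed derivatives. -/
theorem Js.td_pd (hF' : Js α β F) {t : ℝ} (ht : t ∈ Ioo α β) (j : Fin 3) (x : V) :
    NSL.td (fun s => H459R3.NS.pd j (F s)) t x = H459R3.NS.pd j (NSL.td F t) x := by
  obtain ⟨G, hG⟩ : ∃ G : ℝ × V → ℝ, G = fun z => F z.1 z.2 := ⟨_, rfl⟩
  have hmem : Ioo α β ×ˢ (univ : Set V) ∈ 𝓝 (t, x) :=
    prod_mem_nhds (Ioo_mem_nhds ht.1 ht.2) Filter.univ_mem
  have h2 : ContDiffAt ℝ 2 G (t, x) := by
    rw [hG]
    exact (ContDiffOn.of_le hF' (by norm_cast)).contDiffAt hmem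
  have hs : IsSymmSndFDerivAt ℝ G (t, x) := h2.isSymmSndFDerivAt (by simp)
  have hd : DifferentiableAt ℝ (fderiv ℝ G) (t, x) :=
    (h2.fderiv_right (m := 1) (by norm_num)).differentiableAt one_ne_zero
  have l1 : HasDerivAt (fun s => fderiv ℝ G (s, x) (0, Pi.single j 1))
      (fderiv ℝ (fderiv ℝ G) (t, x) (1, 0) (0, Pi.single j 1)) t := by
    have a1 : HasFDerivAt (fun z => fderiv ℝ G z (0, Pi.single j 1)) _ (t, x) :=
      hd.hasFDerivAt.clm_apply (hasFDerivAt_const ((0, Pi.single j (1 : ℝ)) : ℝ × V) (t, x))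
    have a2 : HasDerivAt (fun s : ℝ => ((s, x) : ℝ × V)) (1, 0) t :=
      (hasDerivAt_id t).prodMk (hasDerivAt_const t x)
    have a3 := a1.comp_hasDerivAt t a2
    refine a3.congr_deriv ?_
    simp
  have l2 : NSL.td (fun s => H459R3.NS.pd j (F s)) t x
      = fderiv ℝ (fderiv ℝ G) (t, x) (1, 0) (0, Pi.single j 1) := by
    unfold NSL.td
    rw [← l1.deriv]
    apply Filter.EventuallyEq.deriv_eq
    filter_upwards [Ioo_mem_nhds ht.1 ht.2] with s hs'
    rw [hG]
    exact hF'.pd_eq hs' x j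
  have r1 : HasFDerivAt (fun y => fderiv ℝ G (t, y) (1, 0))
      (((ContinuousLinearMap.apply ℝ ℝ ((1, 0) : ℝ × V)).comp
        (fderiv ℝ (fderiv ℝ G) (t, x))).comp (ContinuousLinearMap.inr ℝ ℝ V)) x := by
    have a1 : HasFDerivAt (fun z => fderiv ℝ G z (1, 0))
        ((ContinuousLinearMap.apply ℝ ℝ ((1, 0) : ℝ × V)).comp
        (fderiv ℝ (fderiv ℝ G) (t, x))) (t, x) :=
      (ContinuousLinearMap.apply ℝ ℝ ((1, 0) : ℝ × V)).hasFDerivAt.comp (t, x) hd.hasFDerivAt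
    have a2 : HasFDerivAt (fun y : V => ((t, y) : ℝ × V)) (ContinuousLinearMap.inr ℝ ℝ V) x :=
      hasFDerivAt_prodMk_right t x
    exact a1.comp x a2
  have r2 : NSL.td F t = fun y => fderiv ℝ G (t, y) (1, 0) := funext fun y => by
    rw [hG]
    exact hF'.td_eq ht y
  rw [l2, r2]
  unfold H459R3.NS.pd
  rw [r1.fderiv]
  simp only [ContinuousLinearMap.comp_apply, ContinuousLinearMap.inr_apply,
    ContinuousLinearMap.apply_apply]
  exact hs.eq _ _

/-- Derivative under the integral sign, for functions which vanish outside of a compact set. -/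
theorem Js.hd_int (hF : Js α β F) {K : Set V} (hK : IsCompact K)
    (hs : ∀ t ∈ Ioo α β, ∀ z ∉ K, F t z = 0) {t : ℝ} (ht : t ∈ Ioo α β) :
    HasDerivAt (fun s => ∫ x, F s x) (∫ x, NSL.td F t x) t := by
  obtain ⟨a, ha1, ha2⟩ := exists_between ht.1
  obtain ⟨b, hb1, hb2⟩ := exists_between ht.2
  have hKK : IsCompact (Icc a b ×ˢ K) := isCompact_Icc.prod hK
  have hsub' : ∀ s ∈ Icc a b, s ∈ Ioo α β := fun s hs => ⟨ha1.trans_le hs.1, hs.2.trans_lt hb2⟩
  have hsub : Icc a b ×ˢ K ⊆ Ioo α β ×ˢ (univ : Set V) :=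
    prod_mono hsub' (subset_univ _)
  obtain ⟨C, hC⟩ := hKK.exists_bound_of_continuousOn ((cont_dt hF).mono hsub)
  have hnh : Icc a b ∈ 𝓝 t := Icc_mem_nhds ha2 hb1
  have hz : ∀ s ∈ Ioo α β, ∀ z ∉ K, NSL.td F s z = 0 := by
    intro s hs' z hz
    have h1 : (fun s => F s z) =ᶠ[𝓝 s] fun _ => 0 := by
      filter_upwards [Ioo_mem_nhds hs'.1 hs'.2] with s hs'
      exact hs s hs' z hz
    unfold NSL.td
    rw [h1.deriv_eq]
    exact deriv_const s 0
  have key := (hasDerivAt_integral_of_dominated_loc_of_deriv_le (s := Icc a b)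
    (F := fun s x => F s x) (F' := fun s x => NSL.td F s x)
    (bound := K.indicator fun _ => C) (μ := volume) hnh ?_ ?_ ?_ ?_ ?_ ?_).2
  · exact key
  · filter_upwards [Ioo_mem_nhds ht.1 ht.2] with s hs
    exact (hF.slice hs).continuous.aestronglyMeasurable
  · exact int_cs (hF.slice ht).continuous (HasCompactSupport.intro hK (hs t ht))
  · exact (hF.td.slice ht).continuous.aestronglyMeasurable
  · refine Filter.Eventually.of_forall fun x s hs' => ?_
    by_cases hx : x ∈ K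
    · rw [indicator_of_mem hx, hF.td_eq (hsub' s hs') x]
      exact hC (s, x) ⟨hs', hx⟩
    · rw [indicator_of_notMem hx, hz s (hsub' s hs') x hx, norm_zero]
  · exact (integrable_indicator_iff hK.measurableSet).2
      (integrableOn_const (hK.measure_lt_top.ne))
  · exact Filter.Eventually.of_forall fun x s hs' => hF.hd (hsub' s hs') x

end

/-! ### Functions on the space -/

theorem pd_symm {f : V → ℝ} (hf : ContDiff ℝ ∞ f) (i j : Fin 3) (x : V) :
    pd i (pd j f) x = pd j (pd i f) x := by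
  have h2 : ContDiffAt ℝ 2 f x := (hf.of_le (by norm_cast)).contDiffAt
  have hs : IsSymmSndFDerivAt ℝ f x := h2.isSymmSndFDerivAt (by simp)
  have hd : DifferentiableAt ℝ (fderiv ℝ f) x :=
    (h2.fderiv_right (m := 1) (by norm_num)).differentiableAt one_ne_zero
  have h1 : ∀ i j : Fin 3, pd i (pd j f) x =
      fderiv ℝ (fderiv ℝ f) x (Pi.single i 1) (Pi.single j 1) := by
    intro i j
    have a1 : HasFDerivAt (fun y => fderiv ℝ f y (Pi.single j 1)) _ x :=
      hd.hasFDerivAt.clm_apply (hasFDerivAt_const (Pi.single j (1 : ℝ) : V) x)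
    unfold pd
    rw [a1.fderiv]
    simp
  rw [h1, h1]
  exact hs.eq _ _

theorem pd_add' {f g : V → ℝ} (hf : ContDiff ℝ ∞ f) (hg : ContDiff ℝ ∞ g) (j : Fin 3) (x : V) :
    pd j (fun y => f y + g y) x = pd j f x + pd j g x := by
  unfold pd
  rw [fderiv_fun_add ((hf.differentiable (by norm_cast)) x) ((hg.differentiable (by norm_cast)) x)]
  rfl

theorem pd_sub' {f g : V → ℝ} (hf : ContDiff ℝ ∞ f) (hg : ContDiff ℝ ∞ g) (j : Fin 3) (x : V) :
    pd j (fun y => f y - g y) x = pd j f x - pd j g x := by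
  unfold pd
  rw [fderiv_fun_sub ((hf.differentiable (by norm_cast)) x) ((hg.differentiable (by norm_cast)) x)]
  rfl

theorem pd_neg' {f : V → ℝ} (j : Fin 3) (x : V) :
    pd j (fun y => -f y) x = -pd j f x := by
  unfold pd
  rw [fderiv_fun_neg]
  rfl

theorem pd_sum' {ι : Type*} {s : Finset ι} {f : ι → V → ℝ} (hf : ∀ i ∈ s, ContDiff ℝ ∞ (f i))
    (j : Fin 3) (x : V) :
    pd j (fun y => ∑ i ∈ s, f i y) x = ∑ i ∈ s, pd j (f i) x := by
  unfold pd
  rw [fderiv_fun_sum fun i hi => ((hf i hi).differentiable (by norm_cast)) x]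
  simp

theorem sm_lap {f : V → ℝ} (hf : ContDiff ℝ ∞ f) : ContDiff ℝ ∞ (lap f) := by
  unfold lap
  exact ContDiff.sum fun j _ => sm_pd (sm_pd hf j) j

theorem pd_lap {f : V → ℝ} (hf : ContDiff ℝ ∞ f) (i : Fin 3) (x : V) :
    pd i (lap f) x = lap (pd i f) x := by
  have h1 : lap f = fun y => ∑ j, pd j (pd j f) y := rfl
  rw [h1, pd_sum' (fun j _ => sm_pd (sm_pd hf j) j)]
  unfold lap
  refine Finset.sum_congr rfl fun j _ => ?_
  rw [pd_symm (sm_pd hf j) i j]
  have h2 : pd i (pd j f) = pd j (pd i f) := funext fun y => pd_symm hf i j y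
  rw [h2]

/-- integration by parts -/
theorem ibpc {f g : V → ℝ} (hf : ContDiff ℝ ∞ f) (hg : ContDiff ℝ ∞ g)
    (hs : HasCompactSupport f) (j : Fin 3) :
    ∫ x, f x * pd j g x = -∫ x, pd j f x * g x := by
  have h1 := Z_pd (hf.mul hg) (hs.mul_right (f' := g)) j
  have h2 : ∀ x, pd j (fun y => f y * g y) x = f x * pd j g x + pd j f x * g x :=
    fun x => pd_mul' hf hg j x
  have h3 : ∫ x, pd j (fun y => f y * g y) x = 0 := h1.2
  simp_rw [h2] at h3
  rw [integral_add] at h3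
  · linarith
  · exact int_cs (hf.continuous.mul (sm_pd hg j).continuous) (hs.mul_right)
  · exact int_cs ((sm_pd hf j).continuous.mul hg.continuous) ((cs_pd hs j).mul_right)

theorem ibpc' {f g : V → ℝ} (hf : ContDiff ℝ ∞ f) (hg : ContDiff ℝ ∞ g)
    (hs : HasCompactSupport g) (j : Fin 3) :
    ∫ x, f x * pd j g x = -∫ x, pd j f x * g x := by
  have h1 := ibpc hg hf hs j
  have e1 : ∀ x, f x * pd j g x = pd j g x * f x := fun x => mul_comm _ _
  have e2 : ∀ x, pd j f x * g x = g x * pd j f x := fun x => mul_comm _ _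
  simp_rw [e1, e2]
  linarith

end Pool.Agent.Q62.NSL
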