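import Pool.Agent.W221.NS.Stm4

/-!
The vorticity.
-/

namespace Pool.Agent.Q62.NSL

open H459R3.NS W221.NS

/-- The square `|curl v|²` of the Euclidean length of the vorticity: half the sum over `a, b` of
`(∂ₐ v_b - ∂_b vₐ)²`. -/
noncomputable def vsq (v : V → V) (x : V) : ℝ :=
  (1 / 2) * ∑ a, ∑ b, (pd a (fun y => v y b) x - pd b (fun y => v y a) x) ^ 2

end Pool.Agent.Q62.NSL
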