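import Pool.Agent.Q62.NSL.GN

/-!
The evolution of the vorticity with a cut-off.
-/

set_option autoImplicit false

open MeasureTheory Set Metric Filter Topology
open scoped ContDiff

namespace Pool.Agent.Q62.NSL

open H459R3.NS W221.NS Pool.Agent.W583.MD

/-- the components of the velocity at the time `t` -/
def cp (u : ℝ → V → V) (t : ℝ) : Fin 3 → V → ℝ := fun i y => u t y i

/-- `∫ |φ ω|²` (twice the square of the norm of `φ curl v`) -/
noncomputable def Yf (φ : V → ℝ) (v : Fin 3 → V → ℝ) : ℝ := ∫ x, ∑ a, ∑ b, (φ x * crl v a b x) ^ 2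

/-- the time derivative of the velocity -/
noncomputable def tu (u : ℝ → V → V) (t : ℝ) : Fin 3 → V → ℝ := fun i => td (fun s y => u s y i) t

theorem cs_fcrl {φ : V → ℝ} (hc : HasCompactSupport φ) (v : Fin 3 → V → ℝ) (a b : Fin 3) :
    HasCompactSupport fun x => φ x * crl v a b x := hc.mul_right

theorem int_sum2 {φ : V → ℝ} {v : Fin 3 → V → ℝ} (hφ : Continuous φ) (hc : HasCompactSupport φ)
    (hv : ∀ i, ContDiff ℝ ∞ (v i)) :
    Integrable fun x => ∑ a, ∑ b, (φ x * crl v a b x) ^ 2 :=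
  integrable_finsetSum _ fun a _ => integrable_finsetSum _ fun b _ =>
    int_pow (hφ.mul (sm_crl hv a b).continuous) (cs_fcrl hc v a b) two_ne_zero

section

variable {α β : ℝ} {u : ℝ → V → V} {p : ℝ → V → ℝ} {φ : V → ℝ}

theorem Big_int (hφ : ContDiff ℝ ∞ φ) (hc : HasCompactSupport φ) {v τ : Fin 3 → V → ℝ}
    {q : V → ℝ} (hv : ∀ i, ContDiff ℝ ∞ (v i)) (hτ : ∀ i, ContDiff ℝ ∞ (τ i))
    (hq : ContDiff ℝ ∞ q) :
    Integrable (Big φ v (Rf v τ q)) ∧
      ∫ x, ∑ a, ∑ b, 2 * (φ x * crl v a b x) * (φ x * crl τ a b x) =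
        ∫ x, Big φ v (Rf v τ q) x := by
  have hZ := Z_tot hφ hc hv
  have hL : Integrable fun x => ∑ a, ∑ b, 2 * (φ x * crl v a b x) * (φ x * crl τ a b x) := by
    refine integrable_finsetSum _ fun a _ => integrable_finsetSum _ fun b _ => ?_
    have c1 : Continuous fun x => 2 * (φ x * crl v a b x) * (φ x * crl τ a b x) :=
      (continuous_const.mul (hφ.continuous.mul (sm_crl hv a b).continuous)).mul
        (hφ.continuous.mul (sm_crl hτ a b).continuous)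
    have c2 : HasCompactSupport fun x => 2 * (φ x * crl v a b x) * (φ x * crl τ a b x) :=
      (cs_fcrl hc τ a b).mul_left
    exact int_cs c1 c2
  have hB : Integrable (Big φ v (Rf v τ q)) := by
    refine (hL.sub hZ.1).congr (Eventually.of_forall fun x => ?_)
    have := pointI hφ hv hτ hq x
    simp only [Pi.sub_apply]
    rw [this]
    ring
  refine ⟨hB, ?_⟩
  have e : (fun x => ∑ a, ∑ b, 2 * (φ x * crl v a b x) * (φ x * crl τ a b x)) = fun x =>
      Big φ v (Rf v τ q) x + ∑ a, ∑ b, ((∑ j, 2 * pd j (fun y => φ y * (φ y * crl v a b y)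
      * pd j (crl v a b) y) x) - 4 * pd a (fun y => φ y * (φ y * crl v a b y) * Bf v b y) x) :=
    funext fun x => pointI hφ hv hτ hq x
  rw [e, integral_add hB hZ.1, hZ.2, add_zero]

/-- The energy identity for the vorticity with a cut-off. -/
theorem Y_hd (hu : ∀ i, Js α β (fun t x => u t x i)) (hp : Js α β p) (hφ : ContDiff ℝ ∞ φ)
    (hc : HasCompactSupport φ) {t : ℝ} (ht : t ∈ Ioo α β) :
    HasDerivAt (fun s => Yf φ (cp u s))
      (∫ x, Big φ (cp u t) (Rf (cp u t) (tu u t) (p t)) x) t := by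
  have hcr : ∀ a b, Js α β (fun s x => crl (cp u s) a b x) := fun a b =>
    ((hu b).pd a).sub ((hu a).pd b)
  have hW : ∀ a b, Js α β (fun s x => φ x * crl (cp u s) a b x) := fun a b =>
    (Js.of_space hφ).mul (hcr a b)
  have hF : Js α β (fun s x => ∑ a, ∑ b, (φ x * crl (cp u s) a b x) ^ 2) :=
    Js.sum fun a _ => Js.sum fun b _ => (hW a b).pow 2
  have h1 := hF.hd_int (K := tsupport φ) hc (fun s _ z hz => by
    have : φ z = 0 := image_eq_zero_of_notMem_tsupport hz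
    simp [this]) ht
  refine h1.congr_deriv ?_
  have hv : ∀ i, ContDiff ℝ ∞ (cp u t i) := fun i => (hu i).slice ht
  have hτ : ∀ i, ContDiff ℝ ∞ (tu u t i) := fun i => (hu i).td.slice ht
  rw [← (Big_int hφ hc hv hτ (hp.slice ht)).2]
  congr 1
  funext x
  have d1 : ∀ a b, HasDerivAt (fun s => crl (cp u s) a b x) (crl (tu u t) a b x) t := by
    intro a b
    have e1 := ((hu b).pd a).hd ht x
    have e2 := ((hu a).pd b).hd ht x
    rw [(hu b).td_pd ht a x] at e1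
    rw [(hu a).td_pd ht b x] at e2
    exact e1.sub e2
  have d2 : ∀ a b, HasDerivAt (fun s => (φ x * crl (cp u s) a b x) ^ 2)
      (2 * (φ x * crl (cp u t) a b x) * (φ x * crl (tu u t) a b x)) t := by
    intro a b
    refine (((d1 a b).const_mul (φ x)).pow 2).congr_deriv ?_
    norm_num
  exact (HasDerivAt.fun_sum fun a _ => HasDerivAt.fun_sum fun b _ => d2 a b).deriv

end

/-! ### Pointwise bounds -/

theorem young4 {x y c : ℝ} (hc : 0 < c) : 4 * (x * y) ≤ c * x ^ 2 + 4 / c * y ^ 2 := by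
  have h : c * x ^ 2 + 4 / c * y ^ 2 - 4 * (x * y) = (c * x - 2 * y) ^ 2 / c := by
    field_simp
    ring
  have : 0 ≤ (c * x - 2 * y) ^ 2 / c := by positivity
  linarith

theorem diag_le (dW : Fin 3 → Fin 3 → Fin 3 → ℝ) :
    ∑ a, ∑ b, dW a b a ^ 2 ≤ ∑ a, ∑ b, ∑ j, dW a b j ^ 2 :=
  Finset.sum_le_sum fun a _ => Finset.sum_le_sum fun b _ =>
    Finset.single_le_sum (f := fun j => dW a b j ^ 2) (fun j _ => sq_nonneg _) (Finset.mem_univ a)

/-- first bound -/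
theorem bound_a {w r : Fin 3 → Fin 3 → ℝ} {dW : Fin 3 → Fin 3 → Fin 3 → ℝ} {dφ vv : Fin 3 → ℝ}
    {f M B F : ℝ} (hB : ∀ j, |dφ j| ≤ B) (hM : ∀ j, |vv j| ≤ M) (hf : |f| ≤ 1)
    (hF : ∀ a b, |r a b| ≤ F) :
    (∑ a, ∑ b, ∑ j, (-2 * dW a b j ^ 2 + 2 * (w a b ^ 2 * dφ j ^ 2)))
    + (∑ a, ∑ b, ∑ j, (4 * (dW a b a * (vv j * (f * w j b)))
      + 4 * (dφ a * w a b * (vv j * (f * w j b)))))
    + ∑ a, ∑ b, 4 * (f * w a b * (f * r a b))
      ≤ (6 * B ^ 2 + 18 * M ^ 2 + 12 * B * M + 2) * (∑ a, ∑ b, w a b ^ 2) + 18 * F ^ 2 := by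
  have hB0 : 0 ≤ B := (abs_nonneg _).trans (hB 0)
  have hM0 : 0 ≤ M := (abs_nonneg _).trans (hM 0)
  have hF0 : 0 ≤ F := (abs_nonneg _).trans (hF 0 0)
  have hf2 : f ^ 2 ≤ 1 := by
    rw [← sq_abs]; exact pow_le_one₀ (abs_nonneg _) hf
  have t1 : ∀ a b j, -2 * dW a b j ^ 2 + 2 * (w a b ^ 2 * dφ j ^ 2) ≤
      -2 * dW a b j ^ 2 + 2 * B ^ 2 * w a b ^ 2 := by
    intro a b j
    have h1 : dφ j ^ 2 ≤ B ^ 2 := sq_le_sq' (by linarith [(abs_le.1 (hB j)).1]) (abs_le.1 (hB j)).2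
    have h2 := mul_le_mul_of_nonneg_left h1 (sq_nonneg (w a b))
    linarith
  have hy : ∀ j b, (vv j * (f * w j b)) ^ 2 ≤ M ^ 2 * w j b ^ 2 := by
    intro j b
    have h1 : vv j ^ 2 ≤ M ^ 2 := sq_le_sq' (by linarith [(abs_le.1 (hM j)).1]) (abs_le.1 (hM j)).2
    calc (vv j * (f * w j b)) ^ 2 = vv j ^ 2 * (f ^ 2 * w j b ^ 2) := by ring
      _ ≤ M ^ 2 * (1 * w j b ^ 2) := by gcongr
      _ = _ := by ring
  have t2 : ∀ a b j, 4 * (dW a b a * (vv j * (f * w j b))) ≤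
      2 / 3 * dW a b a ^ 2 + 6 * M ^ 2 * w j b ^ 2 := by
    intro a b j
    have h1 := young4 (x := dW a b a) (y := vv j * (f * w j b)) (c := 2 / 3) (by norm_num)
    have h2 := hy j b
    norm_num at h1
    linarith
  have t3 : ∀ a b j, 4 * (dφ a * w a b * (vv j * (f * w j b))) ≤
      2 * B * M * w a b ^ 2 + 2 * B * M * w j b ^ 2 := by
    intro a b j
    have h1 : dφ a * w a b * (vv j * (f * w j b)) ≤ (B * |w a b|) * (M * |w j b|) := by
      refine (le_abs_self _).trans ?_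
      rw [abs_mul, abs_mul, abs_mul, abs_mul]
      have h2 : |f| * |w j b| ≤ |w j b| := mul_le_of_le_one_left (abs_nonneg _) hf
      have h3 : |vv j| * (|f| * |w j b|) ≤ M * |w j b| := mul_le_mul (hM j) h2 (by positivity) hM0
      have h4 : |dφ a| * |w a b| ≤ B * |w a b| := mul_le_mul_of_nonneg_right (hB a) (abs_nonneg _)
      exact mul_le_mul h4 h3 (by positivity) (by positivity)
    have h5 : 2 * (|w a b| * |w j b|) ≤ w a b ^ 2 + w j b ^ 2 := by
      have := two_mul_le_add_sq |w a b| |w j b|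
      rw [sq_abs, sq_abs] at this
      linarith
    have h6 := mul_le_mul_of_nonneg_left h5 (by positivity : 0 ≤ 2 * (B * M))
    linarith
  have t4 : ∀ a b, 4 * (f * w a b * (f * r a b)) ≤ 2 * w a b ^ 2 + 2 * F ^ 2 := by
    intro a b
    have h1 := young4 (x := f * w a b) (y := f * r a b) (c := 2) (by norm_num)
    have h2 : (f * w a b) ^ 2 ≤ w a b ^ 2 := by
      rw [mul_pow]; exact mul_le_of_le_one_left (sq_nonneg _) hf2
    have h3 : (f * r a b) ^ 2 ≤ F ^ 2 := by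
      rw [mul_pow]
      have : r a b ^ 2 ≤ F ^ 2 :=
        sq_le_sq' (by linarith [(abs_le.1 (hF a b)).1]) (abs_le.1 (hF a b)).2
      exact (mul_le_of_le_one_left (sq_nonneg _) hf2).trans this
    norm_num at h1
    linarith
  have s1 := Finset.sum_le_sum fun a (_ : a ∈ Finset.univ) => Finset.sum_le_sum
    fun b (_ : b ∈ Finset.univ) => Finset.sum_le_sum fun j (_ : j ∈ Finset.univ) => t1 a b j
  have s2 := Finset.sum_le_sum fun a (_ : a ∈ Finset.univ) => Finset.sum_le_sum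
    fun b (_ : b ∈ Finset.univ) => Finset.sum_le_sum fun j (_ : j ∈ Finset.univ) =>
      add_le_add (t2 a b j) (t3 a b j)
  have s3 := Finset.sum_le_sum fun a (_ : a ∈ Finset.univ) => Finset.sum_le_sum
    fun b (_ : b ∈ Finset.univ) => t4 a b
  have s4 := diag_le dW
  have e : (∑ a, ∑ b, ∑ j, (-2 * dW a b j ^ 2 + 2 * B ^ 2 * w a b ^ 2))
      + (∑ a, ∑ b, ∑ j, (2 / 3 * dW a b a ^ 2 + 6 * M ^ 2 * w j b ^ 2
        + (2 * B * M * w a b ^ 2 + 2 * B * M * w j b ^ 2)))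
      + ∑ a : Fin 3, ∑ b : Fin 3, (2 * w a b ^ 2 + 2 * F ^ 2) =
      (6 * B ^ 2 + 18 * M ^ 2 + 12 * B * M + 2) * (∑ a, ∑ b, w a b ^ 2) + 18 * F ^ 2
      - 2 * ((∑ a, ∑ b, ∑ j, dW a b j ^ 2) - ∑ a, ∑ b, dW a b a ^ 2) := by
    simp only [Fin.sum_univ_three]
    ring
  linarith

/-- second bound -/
theorem bound_b {w r : Fin 3 → Fin 3 → ℝ} {dW : Fin 3 → Fin 3 → Fin 3 → ℝ} {dφ vv : Fin 3 → ℝ}
    {f ψ M B S G : ℝ} (hB : ∀ j, |dφ j| ≤ B) (hM0 : 0 ≤ M) (hf : |f| ≤ 1)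
    (hψ : f = 0 ∨ ψ = 1) (hS : 0 ≤ S)
    (hd : (∀ j, dφ j = 0) ∨ ((∀ j, |vv j| ≤ M) ∧ S = ∑ a, ∑ b, w a b ^ 2))
    (hG : ∀ a b, (f * r a b) ^ 2 ≤ G) :
    (∑ a, ∑ b, ∑ j, (-2 * dW a b j ^ 2 + 2 * (w a b ^ 2 * dφ j ^ 2)))
    + (∑ a, ∑ b, ∑ j, (4 * (dW a b a * (vv j * (f * w j b)))
      + 4 * (dφ a * w a b * (vv j * (f * w j b)))))
    + ∑ a, ∑ b, 4 * (f * w a b * (f * r a b))
      ≤ -(∑ a, ∑ b, ∑ j, dW a b j ^ 2) + 36 * (∑ j, ∑ b, (ψ * vv j) ^ 2 * (f * w j b) ^ 2)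
        + (6 * B ^ 2 + 12 * B * M) * S + 2 * (∑ a, ∑ b, (f * w a b) ^ 2) + 18 * G := by
  have hB0 : 0 ≤ B := (abs_nonneg _).trans (hB 0)
  have t2 : ∀ a b j, 4 * (dW a b a * (vv j * (f * w j b))) ≤
      1 / 3 * dW a b a ^ 2 + 12 * ((ψ * vv j) ^ 2 * (f * w j b) ^ 2) := by
    intro a b j
    have h1 := young4 (x := dW a b a) (y := vv j * (f * w j b)) (c := 1 / 3) (by norm_num)
    have h2 : (vv j * (f * w j b)) ^ 2 = (ψ * vv j) ^ 2 * (f * w j b) ^ 2 := by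
      rcases hψ with h | h
      · rw [h]; ring
      · rw [h]; ring
    rw [h2] at h1
    norm_num at h1
    linarith
  have t4 : ∀ a b, 4 * (f * w a b * (f * r a b)) ≤ 2 * (f * w a b) ^ 2 + 2 * G := by
    intro a b
    have h1 := young4 (x := f * w a b) (y := f * r a b) (c := 2) (by norm_num)
    have h3 := hG a b
    norm_num at h1
    linarith
  have s2 := Finset.sum_le_sum fun a (_ : a ∈ Finset.univ) => Finset.sum_le_sum
    fun b (_ : b ∈ Finset.univ) => Finset.sum_le_sum fun j (_ : j ∈ Finset.univ) => t2 a b j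
  have s3 := Finset.sum_le_sum fun a (_ : a ∈ Finset.univ) => Finset.sum_le_sum
    fun b (_ : b ∈ Finset.univ) => t4 a b
  have s4 := diag_le dW
  have s5 : (∑ a, ∑ b, ∑ j, 2 * (w a b ^ 2 * dφ j ^ 2))
      + (∑ a, ∑ b, ∑ j, 4 * (dφ a * w a b * (vv j * (f * w j b))))
      ≤ (6 * B ^ 2 + 12 * B * M) * S := by
    rcases hd with h | ⟨h, hSe⟩
    · simp only [h]
      have : 0 ≤ (6 * B ^ 2 + 12 * B * M) * S := by positivity
      simpa using this
    · have t1 : ∀ a b j, 2 * (w a b ^ 2 * dφ j ^ 2) ≤ 2 * B ^ 2 * w a b ^ 2 := by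
        intro a b j
        have h1 : dφ j ^ 2 ≤ B ^ 2 :=
          sq_le_sq' (by linarith [(abs_le.1 (hB j)).1]) (abs_le.1 (hB j)).2
        have h2 := mul_le_mul_of_nonneg_left h1 (sq_nonneg (w a b))
        linarith
      have t3 : ∀ a b j, 4 * (dφ a * w a b * (vv j * (f * w j b))) ≤
          2 * B * M * w a b ^ 2 + 2 * B * M * w j b ^ 2 := by
        intro a b j
        have h1 : dφ a * w a b * (vv j * (f * w j b)) ≤ (B * |w a b|) * (M * |w j b|) := by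
          refine (le_abs_self _).trans ?_
          rw [abs_mul, abs_mul, abs_mul, abs_mul]
          have h2 : |f| * |w j b| ≤ |w j b| := mul_le_of_le_one_left (abs_nonneg _) hf
          have h3 : |vv j| * (|f| * |w j b|) ≤ M * |w j b| :=
            mul_le_mul (h j) h2 (by positivity) hM0
          have h4 : |dφ a| * |w a b| ≤ B * |w a b| :=
            mul_le_mul_of_nonneg_right (hB a) (abs_nonneg _)
          exact mul_le_mul h4 h3 (by positivity) (by positivity)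
        have h5 : 2 * (|w a b| * |w j b|) ≤ w a b ^ 2 + w j b ^ 2 := by
          have := two_mul_le_add_sq |w a b| |w j b|
          rw [sq_abs, sq_abs] at this
          linarith
        have h6 := mul_le_mul_of_nonneg_left h5 (by positivity : 0 ≤ 2 * (B * M))
        linarith
      have q1 := Finset.sum_le_sum fun a (_ : a ∈ Finset.univ) => Finset.sum_le_sum
        fun b (_ : b ∈ Finset.univ) => Finset.sum_le_sum fun j (_ : j ∈ Finset.univ) => t1 a b j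
      have q2 := Finset.sum_le_sum fun a (_ : a ∈ Finset.univ) => Finset.sum_le_sum
        fun b (_ : b ∈ Finset.univ) => Finset.sum_le_sum fun j (_ : j ∈ Finset.univ) => t3 a b j
      have e : (∑ a, ∑ b, ∑ j : Fin 3, 2 * B ^ 2 * w a b ^ 2)
          + (∑ a, ∑ b, ∑ j, (2 * B * M * w a b ^ 2 + 2 * B * M * w j b ^ 2)) =
          (6 * B ^ 2 + 12 * B * M) * S := by
        rw [hSe]
        simp only [Fin.sum_univ_three]
        ring
      linarith
  have e : (∑ a, ∑ b, ∑ j, (-2 * dW a b j ^ 2 + 2 * (w a b ^ 2 * dφ j ^ 2)))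
    + (∑ a, ∑ b, ∑ j, (4 * (dW a b a * (vv j * (f * w j b)))
      + 4 * (dφ a * w a b * (vv j * (f * w j b))))) =
      -2 * (∑ a, ∑ b, ∑ j, dW a b j ^ 2) + ((∑ a, ∑ b, ∑ j, 2 * (w a b ^ 2 * dφ j ^ 2))
      + (∑ a, ∑ b, ∑ j, 4 * (dφ a * w a b * (vv j * (f * w j b)))))
      + ∑ a, ∑ b, ∑ j, 4 * (dW a b a * (vv j * (f * w j b))) := by
    simp only [Finset.sum_add_distrib, Finset.mul_sum]
    ring
  have e2 : (∑ a, ∑ b, ∑ j, (1 / 3 * dW a b a ^ 2 + 12 * ((ψ * vv j) ^ 2 * (f * w j b) ^ 2)))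
      = (∑ a, ∑ b, dW a b a ^ 2) + 36 * (∑ j, ∑ b, (ψ * vv j) ^ 2 * (f * w j b) ^ 2) := by
    simp only [Fin.sum_univ_three]
    ring
  have e3 : (∑ a, ∑ b, (2 * (f * w a b) ^ 2 + 2 * G)) =
      2 * (∑ a, ∑ b, (f * w a b) ^ 2) + 18 * G := by
    simp only [Fin.sum_univ_three]
    ring
  linarith

end Pool.Agent.Q62.NSL
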