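import Pool.Agent.Q62.NSL.Point
import Pool.Agent.Q62.NSL.Defs

/-!
The lower bound of Leray counts the singular points.
-/

set_option autoImplicit false

open MeasureTheory Set Metric Filter Topology
open scoped ContDiff ENNReal

namespace Pool.Agent.Q62.NSL

open H459R3.NS W221.NS Pool.Agent.W583.MD

theorem vsq_eq (v : V → V) (x : V) : vsq v x = (1 / 2) * c2 v x := rfl

theorem c2_smul (c : ℝ) (v : V → V) (x : V) : c2 (fun y => c • v y) x = c ^ 2 * c2 v x := by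
  unfold c2 crl
  have h : ∀ i j, pd j (fun y => (c • v y) i) x = c * pd j (fun y => v y i) x := by
    intro i j
    have e : (fun y => (c • v y) i) = fun y => c * v y i := rfl
    rw [e]
    unfold pd
    rw [show (fun y => c * v y i) = c • (fun y => v y i) from rfl, fderiv_const_smul_field]
    simp
  simp only [h, Finset.mul_sum]
  refine Finset.sum_congr rfl fun a _ => Finset.sum_congr rfl fun b _ => ?_
  ring

/-- One point, all viscosities. -/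
theorem point_rate_nu : ∃ c : ℝ, 0 < c ∧ ∀ (ν T E F : ℝ) (Ω : Set V) (u : ℝ → V → V)
    (p : ℝ → V → ℝ) (f : ℝ → V → V), 0 < ν → 0 < T → OSolF ν T E F Ω u p f →
    ∫⁻ t in Ioo 0 T, ∫⁻ y in Ω, ENNReal.ofReal (gsq (u t) y) ≠ ⊤ → ∀ (x₀ : V) (ρ : ℝ), 0 < ρ →
    closedBall x₀ ρ ⊆ Ω → Sing T u x₀ →
    ∀ᶠ t in 𝓝[<] T, ENNReal.ofReal (c * ν ^ (3 / 2 : ℝ) / √(T - t)) ≤
      ∫⁻ x in ball x₀ ρ, ENNReal.ofReal (c2 (u t) x) := by
  obtain ⟨c, hc, H⟩ := point_rate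
  refine ⟨c, hc, ?_⟩
  intro ν T E F Ω u p f hν hT hS hfin x₀ ρ hρ hb hsing
  have hS' := W221.NS.B.p_osc3 ν T |E| |F| Ω u p f hν (osolF_abs hS)
  have hfin' : ∫⁻ t in Ioo 0 (ν * T), ∫⁻ y in Ω,
      ENNReal.ofReal (gsq (fun x => ν⁻¹ • u (t / ν) x) y) ≠ ⊤ := by
    have e1 : ∀ τ, ∫⁻ y in Ω, ENNReal.ofReal (gsq (fun x => ν⁻¹ • u (τ / ν) x) y)
        = ENNReal.ofReal (ν⁻¹ ^ 2) * ∫⁻ y in Ω, ENNReal.ofReal (gsq (u (τ / ν)) y) := by
      intro τ
      rw [← lintegral_const_mul' _ _ ENNReal.ofReal_ne_top]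
      refine lintegral_congr fun y => ?_
      rw [gsq_smul, ENNReal.ofReal_mul (by positivity)]
    simp only [e1]
    rw [lintegral_const_mul' _ _ ENNReal.ofReal_ne_top]
    have ea : Ioo 0 (ν * T) = Ioo (ν * 0) (ν * T) := by rw [mul_zero]
    rw [ea, lint_scale hν (fun τ => ∫⁻ y in Ω, ENNReal.ofReal (gsq (u τ) y))]
    exact ENNReal.mul_ne_top ENNReal.ofReal_ne_top (ENNReal.mul_ne_top ENNReal.ofReal_ne_top hfin)
  have key := H (ν * T) (|E| / ν) (|F| / ν ^ 2) Ω _ _ _ (mul_pos hν hT)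
    (div_nonneg (abs_nonneg E) hν.le) (by positivity) hS' hfin' x₀ ρ hρ hb (sing_scale hν hsing)
  have htend : Tendsto (fun t : ℝ => ν * t) (𝓝[<] T) (𝓝[<] (ν * T)) := by
    refine tendsto_nhdsWithin_iff.2 ⟨?_, ?_⟩
    · exact ((continuous_const.mul continuous_id).tendsto T).mono_left nhdsWithin_le_nhds
    · filter_upwards [self_mem_nhdsWithin] with t ht
      exact mul_lt_mul_of_pos_left ht hν
  filter_upwards [htend.eventually key, self_mem_nhdsWithin] with t ht htT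
  have htT' : 0 < T - t := sub_pos.2 htT
  have e1 : ν * t / ν = t := by field_simp
  simp only [e1] at ht
  have e2 : ∀ x, c2 (fun x => ν⁻¹ • u t x) x = ν⁻¹ ^ 2 * c2 (u t) x := fun x => c2_smul _ _ x
  simp only [e2] at ht
  have e3 : ∫⁻ x in ball x₀ ρ, ENNReal.ofReal (ν⁻¹ ^ 2 * c2 (u t) x) =
      ENNReal.ofReal (ν⁻¹ ^ 2) * ∫⁻ x in ball x₀ ρ, ENNReal.ofReal (c2 (u t) x) := by
    rw [← lintegral_const_mul' _ _ ENNReal.ofReal_ne_top]
    refine lintegral_congr fun y => ?_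
    rw [ENNReal.ofReal_mul (by positivity)]
  rw [e3] at ht
  have e4 : c / √(ν * T - ν * t) * ν ^ 2 = c * ν ^ (3 / 2 : ℝ) / √(T - t) := by
    have h1 : ν * T - ν * t = ν * (T - t) := by ring
    have h2 : √ν ≠ 0 := (Real.sqrt_pos.2 hν).ne'
    have h3 : √(T - t) ≠ 0 := (Real.sqrt_pos.2 htT').ne'
    have h4 : ν ^ 2 = ν ^ (3 / 2 : ℝ) * √ν := by
      rw [Real.sqrt_eq_rpow, ← Real.rpow_add hν]
      norm_num
    rw [h1, Real.sqrt_mul hν.le, h4]
    field_simp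
  rw [← e4, ENNReal.ofReal_mul (by positivity)]
  calc ENNReal.ofReal (c / √(ν * T - ν * t)) * ENNReal.ofReal (ν ^ 2)
      ≤ (ENNReal.ofReal (ν⁻¹ ^ 2) * ∫⁻ x in ball x₀ ρ, ENNReal.ofReal (c2 (u t) x))
        * ENNReal.ofReal (ν ^ 2) := mul_le_mul_left ht _
    _ = ENNReal.ofReal (ν⁻¹ ^ 2) * ENNReal.ofReal (ν ^ 2)
        * ∫⁻ x in ball x₀ ρ, ENNReal.ofReal (c2 (u t) x) := by ring
    _ = _ := by
        rw [← ENNReal.ofReal_mul (by positivity)]
        have : ν⁻¹ ^ 2 * ν ^ 2 = 1 := by field_simp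
        rw [this, ENNReal.ofReal_one, one_mul]

/-- Several points. -/
theorem local_rate : ∃ c : ℝ, 0 < c ∧ ∀ (ν T E F : ℝ) (Ω : Set V) (u : ℝ → V → V)
    (p : ℝ → V → ℝ) (f : ℝ → V → V), 0 < ν → 0 < T → OSolF ν T E F Ω u p f →
    ∫⁻ t in Ioo 0 T, ∫⁻ y in Ω, ENNReal.ofReal (gsq (u t) y) ≠ ⊤ → ∀ U : Set V, IsOpen U →
    U ⊆ Ω → ∀ S : Finset V, (∀ x ∈ S, x ∈ U ∧ Sing T u x) →
    ∀ᶠ t in 𝓝[<] T, ENNReal.ofReal (c * ν ^ (3 / 2 : ℝ) * S.card / √(T - t)) ≤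
      ∫⁻ x in U, ENNReal.ofReal (vsq (u t) x) := by
  obtain ⟨c, hc, H⟩ := point_rate_nu
  refine ⟨c / 2, by positivity, ?_⟩
  intro ν T E F Ω u p f hν hT hS hfin U hU hUΩ S hSing
  obtain ⟨W, hW, hdis⟩ := S.finite_toSet.t2_separation
  have hball : ∀ x ∈ S, ∃ ρ : ℝ, 0 < ρ ∧ closedBall x ρ ⊆ W x ∩ U := by
    intro x hx
    have h1 : W x ∩ U ∈ 𝓝 x := inter_mem ((hW x).2.mem_nhds (hW x).1) (hU.mem_nhds (hSing x hx).1)
    obtain ⟨ρ, hρ, h⟩ := Metric.nhds_basis_closedBall.mem_iff.1 h1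
    exact ⟨ρ, hρ, h⟩
  choose! ρ hρ hb using hball
  have hev : ∀ᶠ t in 𝓝[<] T, ∀ x ∈ S, ENNReal.ofReal (c * ν ^ (3 / 2 : ℝ) / √(T - t)) ≤
      ∫⁻ y in ball x (ρ x), ENNReal.ofReal (c2 (u t) y) := by
    rw [Filter.eventually_all_finset]
    intro x hx
    exact H ν T E F Ω u p f hν hT hS hfin x (ρ x) (hρ x hx)
      ((hb x hx).trans (inter_subset_right.trans hUΩ)) (hSing x hx).2
  filter_upwards [hev] with t ht
  have hpd : (S : Set V).PairwiseDisjoint fun x => ball x (ρ x) := by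
    intro x hx y hy hxy
    refine (hdis hx hy hxy).mono ?_ ?_
    · exact ball_subset_closedBall.trans ((hb x hx).trans inter_subset_left)
    · exact ball_subset_closedBall.trans ((hb y hy).trans inter_subset_left)
  have h1 : ∫⁻ y in ⋃ x ∈ S, ball x (ρ x), ENNReal.ofReal (c2 (u t) y) =
      ∑ x ∈ S, ∫⁻ y in ball x (ρ x), ENNReal.ofReal (c2 (u t) y) :=
    lintegral_biUnion_finset hpd (fun x _ => measurableSet_ball) _
  have h2 : ∫⁻ y in ⋃ x ∈ S, ball x (ρ x), ENNReal.ofReal (c2 (u t) y) ≤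
      ∫⁻ y in U, ENNReal.ofReal (c2 (u t) y) := by
    refine lintegral_mono_set ?_
    refine iUnion₂_subset fun x hx => ?_
    exact ball_subset_closedBall.trans ((hb x hx).trans inter_subset_right)
  have h3 : ENNReal.ofReal (c * ν ^ (3 / 2 : ℝ) * S.card / √(T - t)) ≤
      ∑ x ∈ S, ∫⁻ y in ball x (ρ x), ENNReal.ofReal (c2 (u t) y) := by
    calc ENNReal.ofReal (c * ν ^ (3 / 2 : ℝ) * S.card / √(T - t))
        = ∑ _x ∈ S, ENNReal.ofReal (c * ν ^ (3 / 2 : ℝ) / √(T - t)) := by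
          rw [Finset.sum_const, nsmul_eq_mul, ← ENNReal.ofReal_natCast,
            ← ENNReal.ofReal_mul (Nat.cast_nonneg _)]
          congr 1
          ring
      _ ≤ _ := Finset.sum_le_sum fun x hx => ht x hx
  have h4 : ∫⁻ y in U, ENNReal.ofReal (vsq (u t) y) =
      ENNReal.ofReal (1 / 2) * ∫⁻ y in U, ENNReal.ofReal (c2 (u t) y) := by
    rw [← lintegral_const_mul' _ _ ENNReal.ofReal_ne_top]
    refine lintegral_congr fun y => ?_
    rw [vsq_eq, ENNReal.ofReal_mul (by norm_num)]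
  rw [h4]
  calc ENNReal.ofReal (c / 2 * ν ^ (3 / 2 : ℝ) * S.card / √(T - t))
      = ENNReal.ofReal (1 / 2) * ENNReal.ofReal (c * ν ^ (3 / 2 : ℝ) * S.card / √(T - t)) := by
        rw [← ENNReal.ofReal_mul (by norm_num)]
        congr 1
        ring
    _ ≤ _ := mul_le_mul_right (h3.trans (h1.symm.le.trans h2)) _

/-- Periodic solutions. -/
theorem peri_rate : ∃ c : ℝ, 0 < c ∧ ∀ (ν T F : ℝ) (u : ℝ → V → V) (p : ℝ → V → ℝ)
    (f : ℝ → V → V), 0 < ν → 0 < T → IsSolF ν T F u p f → ∀ S : Finset V,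
    (∀ x ∈ S, x ∈ cube ∧ Sing T u x) →
    ∀ᶠ t in 𝓝[<] T, c * ν ^ (3 / 2 : ℝ) * S.card / √(T - t) ≤ enstrophy (u t) := by
  obtain ⟨c, hc, H⟩ := local_rate
  refine ⟨c / 432, by positivity, ?_⟩
  intro ν T F u p f hν hT hu' S hS
  have hu : IsSolF ν T |F| u p f :=
    { hu' with force := fun t ht => bd3_mono (le_abs_self F) (hu'.force t ht) }
  obtain ⟨⟨E, hE, hEn⟩, hint⟩ := W221.NS.B.p_pen3 ν T |F| u p f hν hT (abs_nonneg F) hu
  have hO : OSolF ν T (15 * E) |F| (ball 0 3) u p f :=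
    W221.NS.B.p_pero.1 ν T E |F| u p f hT hE hu hEn
  have hsp : ∀ t ∈ Ioo 0 T, SPV (u t) := fun t ht =>
    ⟨slice_ico hu.smooth_u ⟨ht.1.le, ht.2⟩, hu.per_u t ⟨ht.1.le, ht.2⟩⟩
  have hgs : ∀ t ∈ Ioo 0 T, ∫⁻ y in ball (0 : V) 3, ENNReal.ofReal (gsq (u t) y) =
      ENNReal.ofReal (216 * enstrophy (u t)) := fun t ht => W221.NS.B.p_pero.2 _ (hsp t ht)
  have hfin : ∫⁻ t in Ioo 0 T, ∫⁻ y in ball (0 : V) 3, ENNReal.ofReal (gsq (u t) y) ≠ ⊤ := by
    rw [setLIntegral_congr_fun measurableSet_Ioo hgs]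
    have h1 := (hint.const_mul 216).lintegral_lt_top
    exact h1.ne
  have key := H ν T (15 * E) |F| (ball 0 3) u p f hν hT hO hfin (ball 0 3) isOpen_ball
    subset_rfl S fun x hx => ⟨cube_sub (hS x hx).1, (hS x hx).2⟩
  have hT' : Ioo 0 T ∈ 𝓝[<] T := Ioo_mem_nhdsLT hT
  filter_upwards [key, hT'] with t ht ht0
  have h1 : ∫⁻ x in ball (0 : V) 3, ENNReal.ofReal (vsq (u t) x) ≤
      ENNReal.ofReal (432 * enstrophy (u t)) := by
    calc ∫⁻ x in ball (0 : V) 3, ENNReal.ofReal (vsq (u t) x)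
        ≤ ∫⁻ x in ball (0 : V) 3, ENNReal.ofReal 2 * ENNReal.ofReal (gsq (u t) x) := by
          refine lintegral_mono fun x => ?_
          rw [← ENNReal.ofReal_mul (by norm_num)]
          refine ENNReal.ofReal_le_ofReal ?_
          rw [vsq_eq]
          have : c2 (u t) x ≤ 4 * gsq (u t) x := crl_le_gsq (u t) x
          linarith
      _ = ENNReal.ofReal 2 * ENNReal.ofReal (216 * enstrophy (u t)) := by
          rw [lintegral_const_mul' _ _ ENNReal.ofReal_ne_top, hgs t ht0]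
      _ = _ := by
          rw [← ENNReal.ofReal_mul (by norm_num)]
          congr 1
          ring
  have h2 := ht.trans h1
  have h3 : 0 ≤ 432 * enstrophy (u t) := by
    have := W221.NS.enstrophy_nonneg (u t)
    linarith
  rw [ENNReal.ofReal_le_ofReal_iff h3] at h2
  have e : c / 432 * ν ^ (3 / 2 : ℝ) * S.card / √(T - t) =
      (c * ν ^ (3 / 2 : ℝ) * S.card / √(T - t)) / 432 := by ring
  rw [e, div_le_iff₀ (by norm_num)]
  linarith

end Pool.Agent.Q62.NSL
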