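import Pool.Agent.Q62.NSL.Vort
import Pool.Agent.W440.MD.SOB
import Pool.Agent.H459R3.NS.Ser

/-!
Inequalities for smooth functions of compact support.
-/

set_option autoImplicit false

open MeasureTheory Set Metric Filter Topology
open scoped ContDiff

namespace Pool.Agent.Q62.NSL

open H459R3.NS W221.NS Pool.Agent.W583.MD

/-- `∫ |∇f|²` -/
noncomputable def Dn (f : V → ℝ) : ℝ := ∫ x, ∑ j, pd j f x ^ 2

theorem Dn_nonneg (f : V → ℝ) : 0 ≤ Dn f := integral_nonneg fun x => by positivity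

theorem int_pow {f : V → ℝ} (hf : Continuous f) (hc : HasCompactSupport f) {n : ℕ} (hn : n ≠ 0) :
    Integrable fun x => f x ^ n := by
  have h1 : HasCompactSupport fun x => f x ^ n :=
    HasCompactSupport.intro hc fun x hx => by
      rw [image_eq_zero_of_notMem_tsupport hx, zero_pow hn]
  exact int_cs (hf.pow n) h1

theorem int_Dn {f : V → ℝ} (hf : ContDiff ℝ ∞ f) (hc : HasCompactSupport f) :
    Integrable fun x => ∑ j, pd j f x ^ 2 := by
  refine integrable_finsetSum _ fun j _ => ?_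
  exact int_pow (sm_pd hf j).continuous (cs_pd hc j) two_ne_zero

/-- The Sobolev inequality. -/
theorem sobolev6 : ∃ K : ℝ, 0 ≤ K ∧ ∀ f : V → ℝ, ContDiff ℝ ∞ f → HasCompactSupport f →
    ∫ x, f x ^ 6 ≤ K * Dn f ^ 3 := by
  obtain ⟨K, hK, h⟩ := Pool.Agent.W440.MD.scalar
  refine ⟨K, hK, fun f hf hc => ?_⟩
  have hf2 : Integrable fun x => f x ^ 2 := int_pow hf.continuous hc two_ne_zero
  have hf6 : Integrable fun x => f x ^ 6 := int_pow hf.continuous hc (by norm_num)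
  have hD := int_Dn hf hc
  have hlim : Tendsto (fun ρ : ℝ => K * (Dn f + (ρ ^ 2)⁻¹ * ∫ x, f x ^ 2) ^ 3) atTop
      (𝓝 (K * (Dn f + 0 * ∫ x, f x ^ 2) ^ 3)) := by
    have h1 : Tendsto (fun ρ : ℝ => (ρ ^ 2)⁻¹) atTop (𝓝 0) :=
      tendsto_inv_atTop_zero.comp (tendsto_pow_atTop two_ne_zero)
    exact ((tendsto_const_nhds.add (h1.mul_const _)).pow 3).const_mul K
  rw [zero_mul, add_zero] at hlim
  refine ge_of_tendsto hlim ?_
  obtain ⟨L, hL⟩ := (hc.isCompact.isBounded).subset_ball (0 : V)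
  filter_upwards [eventually_gt_atTop (max L 1)] with ρ hρ
  have hρL : L < ρ := (le_max_left _ _).trans_lt hρ
  have hρ0 : 0 < ρ := lt_of_lt_of_le one_pos ((le_max_right L 1).trans hρ.le)
  have h1 := h f hf 0 ρ hρ0
  have hz : ∀ x ∉ ball (0 : V) ρ, f x = 0 := by
    intro x hx
    by_contra hne
    exact hx (ball_subset_ball hρL.le (hL (subset_tsupport f hne)))
  have e1 : ∫ x in ball (0 : V) ρ, f x ^ 6 = ∫ x, f x ^ 6 := by
    refine setIntegral_eq_integral_of_forall_compl_eq_zero fun x hx => ?_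
    rw [hz x hx]; norm_num
  rw [e1] at h1
  have hnn : ∀ x, 0 ≤ (∑ j, pd j f x ^ 2) + (ρ ^ 2)⁻¹ * f x ^ 2 := fun x => by positivity
  have hint : Integrable fun x => (∑ j, pd j f x ^ 2) + (ρ ^ 2)⁻¹ * f x ^ 2 :=
    hD.add (hf2.const_mul _)
  have h2 : ∫ x in ball (0 : V) (2 * ρ), ((∑ j, pd j f x ^ 2) + (ρ ^ 2)⁻¹ * f x ^ 2) ≤
      Dn f + (ρ ^ 2)⁻¹ * ∫ x, f x ^ 2 := by
    refine (setIntegral_le_integral hint (Eventually.of_forall hnn)).trans (le_of_eq ?_)
    rw [integral_add hD (hf2.const_mul _), integral_const_mul]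
    rfl
  refine h1.trans (mul_le_mul_of_nonneg_left ?_ hK)
  refine pow_le_pow_left₀ ?_ h2 3
  exact integral_nonneg hnn

/-- the Cauchy-Schwarz inequality -/
theorem csq {a b : V → ℝ} (ha : Continuous a) (hb : Continuous b) (hca : HasCompactSupport a)
    (hcb : HasCompactSupport b) :
    (∫ x, a x * b x) ^ 2 ≤ (∫ x, a x ^ 2) * ∫ x, b x ^ 2 :=
  integral_mul_sq_le (int_pow ha hca two_ne_zero) (int_pow hb hcb two_ne_zero)
    (int_cs (ha.mul hb) hca.mul_right)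

theorem cs_pow {f : V → ℝ} (hc : HasCompactSupport f) {n : ℕ} (hn : n ≠ 0) :
    HasCompactSupport fun x => f x ^ n :=
  HasCompactSupport.intro hc fun x hx => by
    rw [image_eq_zero_of_notMem_tsupport hx, zero_pow hn]

theorem cs_abs {f : V → ℝ} (hc : HasCompactSupport f) :
    HasCompactSupport fun x => |f x| :=
  HasCompactSupport.intro hc fun x hx => by
    rw [image_eq_zero_of_notMem_tsupport hx, abs_zero]

/-- interpolation -/
theorem holder {g h : V → ℝ} (hg : Continuous g) (hh : Continuous h) (hcg : HasCompactSupport g)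
    (hch : HasCompactSupport h) :
    (∫ x, g x ^ 2 * h x ^ 2) ^ 6 ≤ (∫ x, g x ^ 6) ^ 2 * (∫ x, h x ^ 2) ^ 3 * ∫ x, h x ^ 6 := by
  obtain ⟨X, hX⟩ : ∃ X, X = ∫ x, g x ^ 2 * h x ^ 2 := ⟨_, rfl⟩
  obtain ⟨P, hP⟩ : ∃ P, P = ∫ x, g x ^ 6 := ⟨_, rfl⟩
  obtain ⟨A, hA⟩ : ∃ A, A = ∫ x, h x ^ 2 := ⟨_, rfl⟩
  obtain ⟨Q, hQ⟩ : ∃ Q, Q = ∫ x, h x ^ 6 := ⟨_, rfl⟩
  obtain ⟨H, hH⟩ : ∃ H, H = ∫ x, |h x| ^ 3 := ⟨_, rfl⟩
  obtain ⟨R, hR⟩ : ∃ R, R = ∫ x, h x ^ 4 := ⟨_, rfl⟩
  obtain ⟨S, hS⟩ : ∃ S, S = ∫ x, g x ^ 4 * |h x| := ⟨_, rfl⟩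
  have hX0 : 0 ≤ X := hX ▸ integral_nonneg fun x => by positivity
  have hP0 : 0 ≤ P := hP ▸ integral_nonneg fun x => by positivity
  have hA0 : 0 ≤ A := hA ▸ integral_nonneg fun x => by positivity
  have hQ0 : 0 ≤ Q := hQ ▸ integral_nonneg fun x => by positivity
  have hH0 : 0 ≤ H := hH ▸ integral_nonneg fun x => by positivity
  have hR0 : 0 ≤ R := hR ▸ integral_nonneg fun x => by positivity
  have hS0 : 0 ≤ S := hS ▸ integral_nonneg fun x => by positivity
  rw [← hX, ← hP, ← hA, ← hQ]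
  -- X² ≤ S H
  obtain ⟨s, hs⟩ : ∃ s : V → ℝ, s = fun x => √|h x| := ⟨_, rfl⟩
  have hsc : Continuous s := by
    rw [hs]
    exact Real.continuous_sqrt.comp (continuous_abs.comp hh)
  have hss : HasCompactSupport s := by
    rw [hs]
    exact HasCompactSupport.intro hch fun x hx => by
      rw [image_eq_zero_of_notMem_tsupport hx, abs_zero, Real.sqrt_zero]
  have hsq : ∀ x, s x ^ 2 = |h x| := fun x => by
    rw [hs]
    exact Real.sq_sqrt (abs_nonneg _)
  have i1 : X ^ 2 ≤ S * H := by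
    have c1 : Continuous fun x => g x ^ 2 * s x := (hg.pow 2).mul hsc
    have c2 : Continuous fun x => s x ^ 3 := hsc.pow 3
    have c3 : HasCompactSupport fun x => g x ^ 2 * s x := hss.mul_left
    have c4 : HasCompactSupport fun x => s x ^ 3 := cs_pow hss three_ne_zero
    have h1 := csq c1 c2 c3 c4
    have e1 : ∀ x, g x ^ 2 * s x * s x ^ 3 = g x ^ 2 * h x ^ 2 := by
      intro x
      calc g x ^ 2 * s x * s x ^ 3 = g x ^ 2 * (s x ^ 2) ^ 2 := by ring
        _ = _ := by rw [hsq, sq_abs]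
    have e2 : ∀ x, (g x ^ 2 * s x) ^ 2 = g x ^ 4 * |h x| := by
      intro x
      rw [mul_pow, hsq]; ring
    have e3 : ∀ x, (s x ^ 3) ^ 2 = |h x| ^ 3 := by
      intro x
      calc (s x ^ 3) ^ 2 = (s x ^ 2) ^ 3 := by ring
        _ = _ := by rw [hsq]
    simp_rw [e1, e2, e3] at h1
    rw [hX, hS, hH]
    exact h1
  -- S² ≤ P X
  have i2 : S ^ 2 ≤ P * X := by
    have c1 : Continuous fun x => g x ^ 3 := hg.pow 3
    have c2 : Continuous fun x => g x * |h x| := hg.mul (continuous_abs.comp hh)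
    have c3 : HasCompactSupport fun x => g x ^ 3 := cs_pow hcg three_ne_zero
    have c4 : HasCompactSupport fun x => g x * |h x| := hcg.mul_right
    have h1 := csq c1 c2 c3 c4
    have e1 : ∀ x, g x ^ 3 * (g x * |h x|) = g x ^ 4 * |h x| := by
      intro x; ring
    have e2 : ∀ x, (g x ^ 3) ^ 2 = g x ^ 6 := by
      intro x; ring
    have e3 : ∀ x, (g x * |h x|) ^ 2 = g x ^ 2 * h x ^ 2 := by
      intro x; rw [mul_pow, sq_abs]
    simp_rw [e1, e2, e3] at h1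
    rw [hX, hS, hP]
    exact h1
  -- H² ≤ A R
  have i3 : H ^ 2 ≤ A * R := by
    have c1 : Continuous fun x => |h x| := continuous_abs.comp hh
    have c2 : Continuous fun x => h x ^ 2 := hh.pow 2
    have c3 : HasCompactSupport fun x => |h x| := cs_abs hch
    have c4 : HasCompactSupport fun x => h x ^ 2 := cs_pow hch two_ne_zero
    have h1 := csq c1 c2 c3 c4
    have e1 : ∀ x, |h x| * h x ^ 2 = |h x| ^ 3 := by
      intro x; rw [← sq_abs]; ring
    have e2 : ∀ x, |h x| ^ 2 = h x ^ 2 := fun x => sq_abs _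
    have e3 : ∀ x, (h x ^ 2) ^ 2 = h x ^ 4 := by
      intro x; ring
    simp_rw [e1, e2, e3] at h1
    rw [hH, hA, hR]
    exact h1
  -- R² ≤ A Q
  have i4 : R ^ 2 ≤ A * Q := by
    have c2 : Continuous fun x => h x ^ 3 := hh.pow 3
    have c4 : HasCompactSupport fun x => h x ^ 3 := cs_pow hch three_ne_zero
    have h1 := csq hh c2 hch c4
    have e1 : ∀ x, h x * h x ^ 3 = h x ^ 4 := by
      intro x; ring
    have e3 : ∀ x, (h x ^ 3) ^ 2 = h x ^ 6 := by
      intro x; ring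
    simp_rw [e1, e3] at h1
    rw [hA, hR, hQ]
    exact h1
  -- X³ ≤ P H²
  have i5 : X ^ 3 ≤ P * H ^ 2 := by
    rcases hX0.eq_or_lt with h0 | h0
    · have : 0 ≤ P * H ^ 2 := by positivity
      rw [← h0]
      simpa using this
    · have h1 : X ^ 4 ≤ P * X * H ^ 2 := by
        calc X ^ 4 = (X ^ 2) ^ 2 := by ring
          _ ≤ (S * H) ^ 2 := pow_le_pow_left₀ (by positivity) i1 2
          _ = S ^ 2 * H ^ 2 := by ring
          _ ≤ P * X * H ^ 2 := by gcongr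
      have h2 : X * X ^ 3 ≤ X * (P * H ^ 2) := by
        calc X * X ^ 3 = X ^ 4 := by ring
          _ ≤ P * X * H ^ 2 := h1
          _ = _ := by ring
      exact le_of_mul_le_mul_left h2 h0
  calc X ^ 6 = (X ^ 3) ^ 2 := by ring
    _ ≤ (P * H ^ 2) ^ 2 := pow_le_pow_left₀ (by positivity) i5 2
    _ = P ^ 2 * (H ^ 2) ^ 2 := by ring
    _ ≤ P ^ 2 * (A * R) ^ 2 := by gcongr
    _ = P ^ 2 * A ^ 2 * R ^ 2 := by ring
    _ ≤ P ^ 2 * A ^ 2 * (A * Q) := by gcongr
    _ = P ^ 2 * A ^ 3 * Q := by ring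

/-- The interpolation inequality. -/
theorem gn : ∃ K : ℝ, 0 ≤ K ∧ ∀ g h : V → ℝ, ContDiff ℝ ∞ g → ContDiff ℝ ∞ h →
    HasCompactSupport g → HasCompactSupport h →
    ∫ x, g x ^ 2 * h x ^ 2 ≤ K * Dn g * √((∫ x, h x ^ 2) * Dn h) := by
  obtain ⟨K, hK, hS⟩ := sobolev6
  refine ⟨√K, Real.sqrt_nonneg _, fun g h hg hh hcg hch => ?_⟩
  have h1 := holder hg.continuous hh.continuous hcg hch
  have h2 := hS g hg hcg
  have h3 := hS h hh hch
  have hDg := Dn_nonneg g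
  have hDh := Dn_nonneg h
  have hA : 0 ≤ ∫ x, h x ^ 2 := integral_nonneg fun x => by positivity
  have hP : 0 ≤ ∫ x, g x ^ 6 := integral_nonneg fun x => by positivity
  have hQ : 0 ≤ ∫ x, h x ^ 6 := integral_nonneg fun x => by positivity
  have hX : 0 ≤ ∫ x, g x ^ 2 * h x ^ 2 := integral_nonneg fun x => by positivity
  refine (pow_le_pow_iff_left₀ hX (by positivity) (by norm_num : (6 : ℕ) ≠ 0)).1 ?_
  refine h1.trans ?_
  have e1 : (√K * Dn g * √((∫ x, h x ^ 2) * Dn h)) ^ 6 =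
      (√K ^ 2) ^ 3 * Dn g ^ 6 * (√((∫ x, h x ^ 2) * Dn h) ^ 2) ^ 3 := by ring
  rw [e1, Real.sq_sqrt hK, Real.sq_sqrt (by positivity)]
  calc (∫ x, g x ^ 6) ^ 2 * (∫ x, h x ^ 2) ^ 3 * ∫ x, h x ^ 6
      ≤ (K * Dn g ^ 3) ^ 2 * (∫ x, h x ^ 2) ^ 3 * (K * Dn h ^ 3) := by gcongr
    _ = _ := by ring

/-- the identity of the gradient with the curl and the divergence -/
theorem divcurl {v : Fin 3 → V → ℝ} (hv : ∀ i, ContDiff ℝ ∞ (v i))
    (hc : ∀ i, HasCompactSupport (v i)) :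
    ∫ x, ∑ b, ∑ a, pd a (v b) x ^ 2 =
      ∫ x, ((1 / 2) * (∑ a, ∑ b, crl v a b x ^ 2) + (∑ a, pd a (v a) x) ^ 2) := by
  have hZ : Z (fun x => ∑ a, ∑ b, (pd a (fun y => v b y * pd b (v a) y) x
      - pd b (fun y => v b y * pd a (v a) y) x)) := by
    refine Z.sum fun a => Z.sum fun b => Z.sub (Z_pd ?_ ?_ a) (Z_pd ?_ ?_ b)
    · exact (hv b).mul (sm_pd (hv a) b)
    · exact (hc b).mul_right
    · exact (hv b).mul (sm_pd (hv a) a)
    · exact (hc b).mul_right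
  have hp : ∀ x, (∑ b, ∑ a, pd a (v b) x ^ 2) = ((1 / 2) * (∑ a, ∑ b, crl v a b x ^ 2)
      + (∑ a, pd a (v a) x) ^ 2) + ∑ a, ∑ b, (pd a (fun y => v b y * pd b (v a) y) x
      - pd b (fun y => v b y * pd a (v a) y) x) := by
    intro x
    have e1 : ∀ a b, pd a (fun y => v b y * pd b (v a) y) x
        = v b x * pd a (pd b (v a)) x + pd a (v b) x * pd b (v a) x := fun a b =>
      pd_mul' (hv b) (sm_pd (hv a) b) a x
    have e2 : ∀ a b, pd b (fun y => v b y * pd a (v a) y) x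
        = v b x * pd a (pd b (v a)) x + pd b (v b) x * pd a (v a) x := fun a b => by
      rw [pd_mul' (hv b) (sm_pd (hv a) a) b x, pd_symm (hv a) b a]
    simp only [e1, e2, crl, Fin.sum_univ_three]
    ring
  have hi : Integrable fun x => ((1 / 2) * (∑ a, ∑ b, crl v a b x ^ 2)
      + (∑ a, pd a (v a) x) ^ 2) := by
    refine Integrable.add (Integrable.const_mul ?_ _) ?_
    · refine integrable_finsetSum _ fun a _ => integrable_finsetSum _ fun b _ => ?_
      refine int_pow (sm_crl hv a b).continuous ?_ two_ne_zero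
      exact (cs_pd (hc b) a).sub (cs_pd (hc a) b)
    · refine int_pow (continuous_finsetSum _ fun a _ => (sm_pd (hv a) a).continuous) ?_ two_ne_zero
      have h0 := cs_pd (hc 0) 0
      have h1 := cs_pd (hc 1) 1
      have h2 := cs_pd (hc 2) 2
      have e : (fun x => ∑ a, pd a (v a) x) = pd 0 (v 0) + pd 1 (v 1) + pd 2 (v 2) := by
        funext x
        rw [Fin.sum_univ_three]
        rfl
      rw [e]
      exact (h0.add h1).add h2
  simp_rw [hp]
  rw [integral_add hi hZ.1, hZ.2, add_zero]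

end Pool.Agent.Q62.NSL
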