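import Pool.Agent.Q62.NSL.Ball
import Pool.Agent.W221.NS.Asm3

/-!
Regular shells around a point.
-/

set_option autoImplicit false

open MeasureTheory Set Metric Filter Topology
open scoped ContDiff ENNReal

namespace Pool.Agent.Q62.NSL

open H459R3.NS W221.NS Pool.Agent.W583.MD

section

variable {ν T E F : ℝ} {Ω Ω' : Set V} {u f : ℝ → V → V} {p : ℝ → V → ℝ}

theorem osolF_mono (h : OSolF ν T E F Ω u p f) (hO : IsOpen Ω') (hsub : Ω' ⊆ Ω) :
    OSolF ν T E F Ω' u p f where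
  openO := hO
  smooth_u := h.smooth_u.mono (prod_mono_right hsub)
  smooth_p := h.smooth_p.mono (prod_mono_right hsub)
  divfree := fun t ht x hx => h.divfree t ht x (hsub hx)
  momentum := fun t ht x hx => h.momentum t ht x (hsub hx)
  force := fun t ht x hx => h.force t ht x (hsub hx)
  en_int := fun t ht => (h.en_int t ht).mono_set hsub
  en := fun t ht => (setIntegral_mono_set (h.en_int t ht)
    (Eventually.of_forall fun x => Pool.Agent.W349.MF.nsq_nonneg' _ x)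
    (LE.le.eventuallyLE hsub)).trans (h.en t ht)

/-- The dissipation in short time windows is small. -/
theorem tail {D : ℝ → ℝ≥0∞} (hT : 0 < T) (hfin : ∫⁻ t in Ioo 0 T, D t ≠ ⊤) {ε : ℝ≥0∞} (hε : ε ≠ 0) :
    ∃ r₁ : ℝ, 0 < r₁ ∧ ∀ r : ℝ, 0 < r → r < r₁ → ∫⁻ τ in Ioo (T - 32 * r ^ 2) T, D τ < ε := by
  obtain ⟨δ, hδ, h⟩ := exists_pos_setLIntegral_lt_of_measure_lt hfin hε
  obtain ⟨d, hd0, hd⟩ : ∃ d : ℝ, 0 < d ∧ ENNReal.ofReal d < δ := by
    obtain ⟨d, hd1, hd2⟩ := ENNReal.lt_iff_exists_nnreal_btwn.1 hδ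
    refine ⟨d, ?_, ?_⟩
    · exact_mod_cast hd1
    · rwa [ENNReal.ofReal_coe_nnreal]
  refine ⟨min (min 1 (d / 32)) (T / 32), by positivity, fun r hr hrr => ?_⟩
  have h1 : r < 1 := hrr.trans_le ((min_le_left _ _).trans (min_le_left _ _))
  have h2 : r < d / 32 := hrr.trans_le ((min_le_left _ _).trans (min_le_right _ _))
  have h3 : r < T / 32 := hrr.trans_le (min_le_right _ _)
  have h4 : 32 * r ^ 2 < d := by nlinarith
  have h5 : 32 * r ^ 2 < T := by nlinarith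
  have hsub : Ioo (T - 32 * r ^ 2) T ⊆ Ioo 0 T := Ioo_subset_Ioo_left (by linarith)
  have h6 := h (Ioo (T - 32 * r ^ 2) T) (by
    rw [Measure.restrict_apply measurableSet_Ioo, inter_eq_left.2 hsub, Real.volume_Ioo]
    refine lt_of_le_of_lt (ENNReal.ofReal_le_ofReal ?_) hd
    linarith)
  rwa [Measure.restrict_restrict measurableSet_Ioo, inter_eq_left.2 hsub] at h6

/-- There are regular shells around every point. -/
theorem exists_shell (hT : 0 < T) (hE : 0 ≤ E) (hF : 0 ≤ F) (hS : OSolF 1 T E F Ω u p f)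
    (hfin : ∫⁻ t in Ioo 0 T, ∫⁻ y in Ω, ENNReal.ofReal (gsq (u t) y) ≠ ⊤) {x₀ : V} {ρ : ℝ}
    (hρ : 0 < ρ) (hb : closedBall x₀ ρ ⊆ Ω) :
    ∃ a b : ℝ, 0 < a ∧ a < b ∧ b < ρ ∧ ∀ x, a ≤ ‖x - x₀‖ → ‖x - x₀‖ ≤ b → ¬ Sing T u x := by
  by_contra hcon
  push Not at hcon
  obtain ⟨C, hC, H⟩ := W221.NS.B.p_omega3
  obtain ⟨r₀, hr₀, H⟩ := H T E F Ω u p f hT hE hF hS (closedBall x₀ ρ)
    (isCompact_closedBall x₀ ρ) hb
  obtain ⟨r₁, hr₁, H1⟩ := tail hT hfin (ε := ENNReal.ofReal (ρ / (6 * C)))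
    (by rw [Ne, ENNReal.ofReal_eq_zero, not_le]; positivity)
  -- the number of shells
  obtain ⟨n, hn⟩ := exists_nat_gt (max (ρ / r₀) (ρ / r₁) + 1)
  have hn1 : (1 : ℝ) < n := by
    have : 0 ≤ max (ρ / r₀) (ρ / r₁) := le_max_of_le_left (by positivity)
    linarith
  have hn0 : (0 : ℝ) < n := by linarith
  obtain ⟨q, hq⟩ : ∃ q : ℝ, q = ρ / (2 * n + 1) := ⟨_, rfl⟩
  have hq0 : 0 < q := by rw [hq]; positivity
  have hqn : q * (2 * n + 1) = ρ := by
    rw [hq]; field_simp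
  have hx : ∀ j : ℕ, j < n → ∃ x : V, (2 * j + 1) * q ≤ ‖x - x₀‖ ∧
      ‖x - x₀‖ ≤ (2 * j + 3 / 2) * q ∧ Sing T u x := by
    intro j hj
    have hj' : (j : ℝ) + 1 ≤ n := by exact_mod_cast hj
    obtain ⟨x, h1, h2, h3⟩ := hcon ((2 * j + 1) * q) ((2 * j + 3 / 2) * q) (by positivity)
      (by nlinarith) (by nlinarith)
    exact ⟨x, h1, h2, h3⟩
  choose! x hx1 hx2 hx3 using hx
  have hsep : ∀ i < n, ∀ j < n, i < j → q / 2 ≤ ‖x i - x j‖ := by
    intro i hi j hj hij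
    have h1 := hx2 i hi
    have h2 := hx1 j hj
    have h3 : ‖x j - x₀‖ - ‖x i - x₀‖ ≤ ‖x i - x j‖ := by
      have := norm_sub_norm_le (x j - x₀) (x i - x₀)
      have e : x j - x₀ - (x i - x₀) = x j - x i := by abel
      rw [e] at this
      rwa [norm_sub_rev (x i) (x j)]
    have h4 : (i : ℝ) + 1 ≤ j := by exact_mod_cast hij
    nlinarith
  have hsep' : ∀ i < n, ∀ j < n, i ≠ j → q / 2 ≤ ‖x i - x j‖ := by
    intro i hi j hj hij
    rcases lt_or_gt_of_ne hij with h | h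
    · exact hsep i hi j hj h
    · rw [norm_sub_rev]
      exact hsep j hj i hi h
  classical
  have hinj : Set.InjOn x (Finset.range n : Set ℕ) := by
    intro i hi j hj hij
    by_contra hne
    have h1 := hsep' i (Finset.mem_range.1 hi) j (Finset.mem_range.1 hj) hne
    rw [hij, sub_self, norm_zero] at h1
    linarith
  have hcard : ((Finset.range n).image x).card = n := by
    rw [Finset.card_image_of_injOn hinj, Finset.card_range]
  have hnr0 : q / 2 < r₀ := by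
    have h1 : ρ / r₀ < n := by
      have := le_max_left (ρ / r₀) (ρ / r₁)
      linarith
    rw [div_lt_iff₀ hr₀] at h1
    nlinarith
  have hnr1 : q / 2 < r₁ := by
    have h1 : ρ / r₁ < n := by
      have := le_max_right (ρ / r₀) (ρ / r₁)
      linarith
    rw [div_lt_iff₀ hr₁] at h1
    nlinarith
  have key := H (q / 2) (by positivity) hnr0 ((Finset.range n).image x) (by
    intro y hy
    obtain ⟨j, hj, rfl⟩ := Finset.mem_image.1 hy
    have hj' := Finset.mem_range.1 hj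
    refine ⟨?_, hx3 j hj'⟩
    rw [mem_closedBall, dist_eq_norm]
    refine (hx2 j hj').trans ?_
    have h4 : (j : ℝ) + 1 ≤ n := by exact_mod_cast hj'
    nlinarith) (by
    intro y hy z hz hyz
    obtain ⟨i, hi, rfl⟩ := Finset.mem_image.1 hy
    obtain ⟨j, hj, rfl⟩ := Finset.mem_image.1 hz
    exact hsep' i (Finset.mem_range.1 hi) j (Finset.mem_range.1 hj) fun h => hyz (by rw [h]))
  rw [hcard] at key
  have h5 : ENNReal.ofReal (n * (q / 2)) <  ENNReal.ofReal C * ENNReal.ofReal (ρ / (6 * C)) :=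
    key.trans_lt (ENNReal.mul_lt_mul_right (by
      rw [Ne, ENNReal.ofReal_eq_zero, not_le]; exact hC) ENNReal.ofReal_ne_top
      (H1 (q / 2) (by positivity) hnr1))
  rw [← ENNReal.ofReal_mul hC.le, ENNReal.ofReal_lt_ofReal_iff (by positivity)] at h5
  have e : C * (ρ / (6 * C)) = ρ / 6 := by field_simp
  rw [e] at h5
  nlinarith

/-- Uniform bounds near a compact set of regular points. -/
theorem bdd_compact {A : Set V} (hA : IsCompact A) (hreg : ∀ x ∈ A, ¬ Sing T u x) :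
    ∃ δ : ℝ, 0 < δ ∧ ∃ M : ℝ, ∀ t ∈ Ioo (T - δ) T, ∀ x ∈ A, ‖u t x‖ ≤ M := by
  refine hA.induction_on (p := fun A => ∃ δ : ℝ, 0 < δ ∧ ∃ M : ℝ, ∀ t ∈ Ioo (T - δ) T, ∀ x ∈ A,
    ‖u t x‖ ≤ M) ?_ ?_ ?_ ?_
  · exact ⟨1, one_pos, 0, fun t _ x hx => hx.elim⟩
  · rintro A B hAB ⟨δ, hδ, M, h⟩
    exact ⟨δ, hδ, M, fun t ht x hx => h t ht x (hAB hx)⟩
  · rintro A B ⟨δ, hδ, M, h⟩ ⟨δ', hδ', M', h'⟩
    refine ⟨min δ δ', lt_min hδ hδ', max M M', fun t ht x hx => ?_⟩
    rcases hx with hx | hx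
    · exact (h t ⟨by linarith [ht.1, min_le_left δ δ'], ht.2⟩ x hx).trans (le_max_left _ _)
    · exact (h' t ⟨by linarith [ht.1, min_le_right δ δ'], ht.2⟩ x hx).trans (le_max_right _ _)
  · intro x hx
    have h := hreg x hx
    unfold Sing at h
    push Not at h
    obtain ⟨δ, hδ, M, h⟩ := h
    exact ⟨ball x δ, mem_nhdsWithin_of_mem_nhds (ball_mem_nhds x hδ), δ, hδ, M, h⟩

end

end Pool.Agent.Q62.NSL
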