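import Pool.Agent.Q62.NSL.Local

/-!
The lower bound of Leray near one singular point.
-/

set_option autoImplicit false

open MeasureTheory Set Metric Filter Topology
open scoped ContDiff ENNReal

namespace Pool.Agent.Q62.NSL

open H459R3.NS W221.NS Pool.Agent.W583.MD Pool.Agent.W349.MF Pool.Agent.W436.MH

theorem pd_congr {f g : V → ℝ} {x : V} (h : f =ᶠ[𝓝 x] g) (j : Fin 3) : pd j f x = pd j g x := by
  unfold pd
  rw [h.fderiv_eq]

theorem pd_const_near {f : V → ℝ} {x : V} {c : ℝ} (h : f =ᶠ[𝓝 x] fun _ => c) (j : Fin 3) :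
    pd j f x = 0 := by
  rw [pd_congr h]
  unfold pd
  simp

/-- the sum of the squares of the entries of the curl matrix -/
noncomputable def c2 (v : V → V) (x : V) : ℝ := ∑ a, ∑ b, crl (fun i y => v y i) a b x ^ 2

theorem c2_nonneg (v : V → V) (x : V) : 0 ≤ c2 v x :=
  Finset.sum_nonneg fun _ _ => Finset.sum_nonneg fun _ _ => sq_nonneg _

theorem c2_congr {v w : V → V} {x : V} (h : v =ᶠ[𝓝 x] w) : c2 v x = c2 w x := by
  unfold c2 crl
  refine Finset.sum_congr rfl fun a _ => Finset.sum_congr rfl fun b _ => ?_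
  have h1 : ∀ i, (fun y => v y i) =ᶠ[𝓝 x] fun y => w y i := fun i => by
    filter_upwards [h] with y hy
    rw [hy]
  rw [pd_congr (h1 b) a, pd_congr (h1 a) b]

theorem gsq_congr {v w : V → V} {x : V} (h : v =ᶠ[𝓝 x] w) : gsq v x = gsq w x := by
  unfold gsq
  refine Finset.sum_congr rfl fun i _ => Finset.sum_congr rfl fun j _ => ?_
  have h1 : (fun y => v y i) =ᶠ[𝓝 x] fun y => w y i := by
    filter_upwards [h] with y hy
    rw [hy]
  rw [pd_congr h1 j]

/-- A point where the dissipation is bounded is regular. -/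
theorem not_sing {T E F : ℝ} {Ω : Set V} {u f : ℝ → V → V} {p : ℝ → V → ℝ} (hT : 0 < T)
    (hE : 0 ≤ E) (hF : 0 ≤ F) (hS : OSolF 1 T E F Ω u p f) {x₀ : V} {r s K : ℝ} (hr : 0 < r)
    (hb : ball x₀ r ⊆ Ω) (hs : s < T)
    (hK : ∀ t ∈ Ioo s T, ∫⁻ y in ball x₀ r, ENNReal.ofReal (gsq (u t) y) ≤ ENNReal.ofReal K) :
    ¬ Sing T u x₀ := by
  intro hsing
  obtain ⟨C, hC, H⟩ := W221.NS.B.p_omega3
  obtain ⟨r₀, hr₀, H⟩ := H T E F (ball x₀ r) u p f hT hE hF (osolF_mono hS isOpen_ball hb) {x₀}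
    isCompact_singleton (singleton_subset_iff.2 (mem_ball_self hr))
  obtain ⟨q, hq⟩ : ∃ q : ℝ, q = min (min (r₀ / 2) 1) (min ((T - s) / 32) (1 / (64 * C * |K| + 1))) :=
    ⟨_, rfl⟩
  have hTs : 0 < T - s := by linarith
  have hq0 : 0 < q := by rw [hq]; positivity
  have hq1 : q ≤ r₀ / 2 := by rw [hq]; exact (min_le_left _ _).trans (min_le_left _ _)
  have hq2 : q ≤ 1 := by rw [hq]; exact (min_le_left _ _).trans (min_le_right _ _)
  have hq3 : q ≤ (T - s) / 32 := by rw [hq]; exact (min_le_right _ _).trans (min_le_left _ _)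
  have hq4 : q ≤ 1 / (64 * C * |K| + 1) := by
    rw [hq]; exact (min_le_right _ _).trans (min_le_right _ _)
  have key := H q hq0 (by linarith) {x₀} (by
    intro x hx
    rw [Finset.mem_singleton.1 hx]
    exact ⟨mem_singleton x₀, hsing⟩) (by
    intro x hx y hy hxy
    exact absurd ((Finset.mem_singleton.1 hx).trans (Finset.mem_singleton.1 hy).symm) hxy)
  have h1 : ∫⁻ τ in Ioo (T - 32 * q ^ 2) T, ∫⁻ y in ball x₀ r, ENNReal.ofReal (gsq (u τ) y) ≤
      ENNReal.ofReal (|K| * (32 * q ^ 2)) := by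
    calc ∫⁻ τ in Ioo (T - 32 * q ^ 2) T, ∫⁻ y in ball x₀ r, ENNReal.ofReal (gsq (u τ) y)
        ≤ ∫⁻ _ in Ioo (T - 32 * q ^ 2) T, ENNReal.ofReal |K| := by
          refine setLIntegral_mono' measurableSet_Ioo fun τ hτ => ?_
          refine (hK τ ⟨?_, hτ.2⟩).trans (ENNReal.ofReal_le_ofReal (le_abs_self K))
          have : 32 * q ^ 2 ≤ T - s := by nlinarith
          linarith [hτ.1]
      _ = ENNReal.ofReal (|K| * (32 * q ^ 2)) := by
          rw [setLIntegral_const, Real.volume_Ioo, ← ENNReal.ofReal_mul (abs_nonneg K)]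
          congr 2
          ring
  have h2 := key.trans (mul_le_mul_right h1 (ENNReal.ofReal C))
  rw [Finset.card_singleton, ← ENNReal.ofReal_mul hC.le,
    ENNReal.ofReal_le_ofReal_iff (by positivity), Nat.cast_one, one_mul] at h2
  have h3 : q * (64 * C * |K| + 1) ≤ 1 := by
    rwa [le_div_iff₀ (by positivity)] at hq4
  have h4 : 0 ≤ C * |K| := by positivity
  have h5 : q * 1 ≤ q * (32 * C * |K| * q) := by
    calc q * 1 ≤ C * (|K| * (32 * q ^ 2)) := by linarith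
      _ = _ := by ring
  have h6 := le_of_mul_le_mul_left h5 hq0
  nlinarith

/-- The lower bound of Leray near one singular point. -/
theorem point_rate : ∃ c : ℝ, 0 < c ∧ ∀ (T E F : ℝ) (Ω : Set V) (u : ℝ → V → V) (p : ℝ → V → ℝ)
    (f : ℝ → V → V), 0 < T → 0 ≤ E → 0 ≤ F → OSolF 1 T E F Ω u p f →
    ∫⁻ t in Ioo 0 T, ∫⁻ y in Ω, ENNReal.ofReal (gsq (u t) y) ≠ ⊤ → ∀ (x₀ : V) (ρ : ℝ), 0 < ρ →
    closedBall x₀ ρ ⊆ Ω → Sing T u x₀ →
    ∀ᶠ t in 𝓝[<] T, ENNReal.ofReal (c / √(T - t)) ≤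
      ∫⁻ x in ball x₀ ρ, ENNReal.ofReal (c2 (u t) x) := by
  obtain ⟨κ, hκ, hdi⟩ := diff_ineq
  have hκ2 : 0 < √(2 * κ) := Real.sqrt_pos.2 (by positivity)
  refine ⟨1 / (2 * √(2 * κ)), by positivity, ?_⟩
  intro T E F Ω u p f hT hE hF hS hfin x₀ ρ hρ hbΩ hsing
  obtain ⟨a, b, ha, hab, hbρ, hreg⟩ := exists_shell hT hE hF hS hfin hρ hbΩ
  -- the cut-off solution
  obtain ⟨ζ, δ₁, hδ₁, hζ, hcζ, htζ, h01, h1, hOΩ⟩ :=
    cutoff (isCompact_closedBall x₀ ρ) hS.openO hbΩ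
  obtain ⟨Bζ, hBζ0, hBζ⟩ := pd_bd hζ hcζ
  obtain ⟨O, hOe⟩ : ∃ O : Set V, O = thickening δ₁ (closedBall x₀ ρ) := ⟨_, rfl⟩
  rw [← hOe] at h1 hOΩ
  have hOo : IsOpen O := by rw [hOe]; exact isOpen_thickening
  have hKO : closedBall x₀ ρ ⊆ O := by rw [hOe]; exact self_subset_thickening hδ₁ _
  have hL := cut_sol3 hE hS hζ hcζ htζ h01 hOo hOΩ h1 hBζ0 hBζ
  obtain ⟨w, hw⟩ : ∃ w : ℝ → V → V, w = fun t x => ζ x • u t x := ⟨_, rfl⟩
  obtain ⟨q, hq⟩ : ∃ q : ℝ → V → ℝ, q = fun t x => ζ x * p t x := ⟨_, rfl⟩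
  rw [← hw, ← hq] at hL
  have hwu : ∀ t, ∀ x ∈ O, w t =ᶠ[𝓝 x] u t := by
    intro t x hx
    filter_upwards [hOo.mem_nhds hx] with y hy
    rw [hw]
    simp only
    rw [h1 y hy, one_smul]
  have hbO : ball x₀ ρ ⊆ O := ball_subset_closedBall.trans hKO
  have hfin' : ∫⁻ t in Ioo 0 T, ∫⁻ y in O, ENNReal.ofReal (gsq (w t) y) ≠ ⊤ := by
    refine ne_top_of_le_ne_top hfin (lintegral_mono fun t => ?_)
    have e : ∫⁻ y in O, ENNReal.ofReal (gsq (w t) y) = ∫⁻ y in O, ENNReal.ofReal (gsq (u t) y) :=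
      setLIntegral_congr_fun hOo.measurableSet fun y hy => by
        simp only [gsq_congr (hwu t y hy)]
    simp only [e]
    exact lintegral_mono_set hOΩ
  -- the bound in the shell
  have hAc : IsCompact {x : V | a ≤ ‖x - x₀‖ ∧ ‖x - x₀‖ ≤ b} := by
    have cn : Continuous fun x : V => ‖x - x₀‖ := by fun_prop
    refine (isCompact_closedBall x₀ b).of_isClosed_subset ?_ ?_
    · exact (isClosed_le continuous_const cn).inter (isClosed_le cn continuous_const)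
    · intro x hx
      rw [mem_closedBall, dist_eq_norm]
      exact hx.2
  obtain ⟨δ₂, hδ₂, M, hM⟩ := bdd_compact hAc fun x hx => hreg x hx.1 hx.2
  obtain ⟨s, hs⟩ : ∃ s : ℝ, s = max (T - δ₂) (T / 2) := ⟨_, rfl⟩
  have hs1 : T - δ₂ ≤ s := hs ▸ le_max_left _ _
  have hs2 : T / 2 ≤ s := hs ▸ le_max_right _ _
  have hsT : s < T := by rw [hs]; exact max_lt (by linarith) (by linarith)
  have hs0 : s ∈ Ioo 0 T := ⟨by linarith, hsT⟩
  obtain ⟨s', hs'⟩ : ∃ s' : ℝ, s' = (s + T) / 2 := ⟨_, rfl⟩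
  have hs's : s' ∈ Ioo s T := ⟨by rw [hs']; linarith, by rw [hs']; linarith⟩
  have hMw : ∀ t ∈ Ioo s T, ∀ x, a ≤ ‖x - x₀‖ → ‖x - x₀‖ ≤ b → ∀ j, |w t x j| ≤ M := by
    intro t ht x hx1 hx2 j
    have hxO : x ∈ O := hKO (by rw [mem_closedBall, dist_eq_norm]; linarith)
    have e : w t x = u t x := (hwu t x hxO).eq_of_nhds
    rw [e]
    have h2 := hM t ⟨by linarith [ht.1], ht.2⟩ x ⟨hx1, hx2⟩
    have h3 := norm_le_pi_norm (u t x) j
    rw [Real.norm_eq_abs] at h3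
    linarith
  -- the radii
  obtain ⟨r₁, hr₁⟩ : ∃ r : ℝ, r = a + (b - a) / 4 := ⟨_, rfl⟩
  obtain ⟨r₂, hr₂⟩ : ∃ r : ℝ, r = a + (b - a) / 2 := ⟨_, rfl⟩
  obtain ⟨r₃, hr₃⟩ : ∃ r : ℝ, r = a + 3 * (b - a) / 4 := ⟨_, rfl⟩
  have ha1 : a < r₁ := by rw [hr₁]; linarith
  have h12 : r₁ < r₂ := by rw [hr₁, hr₂]; linarith
  have h23 : r₂ < r₃ := by rw [hr₂, hr₃]; linarith
  have h3b : r₃ < b := by rw [hr₃]; linarith
  let φ : ContDiffBump x₀ := ⟨r₁, r₂, by linarith, h12⟩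
  let ψ : ContDiffBump x₀ := ⟨r₂, r₃, by linarith, h23⟩
  let βo : ContDiffBump x₀ := ⟨r₃, b, by linarith, h3b⟩
  let βi : ContDiffBump x₀ := ⟨a, r₁, ha, ha1⟩
  obtain ⟨χ, hχe⟩ : ∃ χ : V → ℝ, χ = fun x => βo x - βi x := ⟨_, rfl⟩
  have hφs : ContDiff ℝ ∞ (φ : V → ℝ) := φ.contDiff
  have hψs : ContDiff ℝ ∞ (ψ : V → ℝ) := ψ.contDiff
  have hχs : ContDiff ℝ ∞ χ := by
    rw [hχe]
    have h1 : ContDiff ℝ ∞ (βo : V → ℝ) := βo.contDiff
    have h2 : ContDiff ℝ ∞ (βi : V → ℝ) := βi.contDiff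
    exact h1.sub h2
  have hφ1 : ∀ x, ‖x - x₀‖ ≤ r₁ → φ x = 1 := fun x hx =>
    φ.one_of_mem_closedBall (by rw [mem_closedBall, dist_eq_norm]; exact hx)
  have hφ0 : ∀ x, r₂ ≤ ‖x - x₀‖ → φ x = 0 := fun x hx =>
    φ.zero_of_le_dist (by rw [dist_eq_norm]; exact hx)
  have hψ1 : ∀ x, ‖x - x₀‖ ≤ r₂ → ψ x = 1 := fun x hx =>
    ψ.one_of_mem_closedBall (by rw [mem_closedBall, dist_eq_norm]; exact hx)
  have hψ0 : ∀ x, r₃ ≤ ‖x - x₀‖ → ψ x = 0 := fun x hx =>
    ψ.zero_of_le_dist (by rw [dist_eq_norm]; exact hx)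
  have ho1 : ∀ x, ‖x - x₀‖ ≤ r₃ → βo x = 1 := fun x hx =>
    βo.one_of_mem_closedBall (by rw [mem_closedBall, dist_eq_norm]; exact hx)
  have ho0 : ∀ x, b ≤ ‖x - x₀‖ → βo x = 0 := fun x hx =>
    βo.zero_of_le_dist (by rw [dist_eq_norm]; exact hx)
  have hi1 : ∀ x, ‖x - x₀‖ ≤ a → βi x = 1 := fun x hx =>
    βi.one_of_mem_closedBall (by rw [mem_closedBall, dist_eq_norm]; exact hx)
  have hi0 : ∀ x, r₁ ≤ ‖x - x₀‖ → βi x = 0 := fun x hx =>
    βi.zero_of_le_dist (by rw [dist_eq_norm]; exact hx)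
  have hχ1 : ∀ x, r₁ ≤ ‖x - x₀‖ → ‖x - x₀‖ ≤ r₃ → χ x = 1 := fun x hx1 hx2 => by
    rw [hχe]
    simp only
    rw [ho1 x hx2, hi0 x hx1, sub_zero]
  have hχabs : ∀ x, |χ x| ≤ 1 := by
    intro x
    rw [hχe, abs_le]
    simp only
    constructor
    · linarith [βo.nonneg (x := x), βi.le_one (x := x)]
    · linarith [βi.nonneg (x := x), βo.le_one (x := x)]
  have hχt : tsupport χ ⊆ {x : V | a ≤ ‖x - x₀‖ ∧ ‖x - x₀‖ ≤ b} := by
    refine closure_minimal ?_ hAc.isClosed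
    intro x hx
    by_contra hcon
    apply hx
    rw [hχe]
    simp only
    by_cases h : a ≤ ‖x - x₀‖
    · have h' : b ≤ ‖x - x₀‖ := by
        by_contra hc
        exact hcon ⟨h, (not_le.1 hc).le⟩
      rw [ho0 x h', hi0 x (by linarith), sub_zero]
    · have h' : ‖x - x₀‖ ≤ a := (not_le.1 h).le
      rw [ho1 x (by linarith), hi1 x h', sub_self]
  have hχc : HasCompactSupport χ := hAc.of_isClosed_subset (isClosed_tsupport χ) hχt
  have hsub : ∀ r : ℝ, r < ρ → closedBall x₀ r ⊆ ball x₀ ρ := fun r hr =>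
    closedBall_subset_ball hr
  have hφt : tsupport (φ : V → ℝ) ⊆ ball x₀ ρ := by
    rw [φ.tsupport_eq]
    exact hsub _ (show r₂ < ρ by linarith)
  have hψt : tsupport (ψ : V → ℝ) ⊆ ball x₀ ρ := by
    rw [ψ.tsupport_eq]
    exact hsub _ (show r₃ < ρ by linarith)
  have hχt' : tsupport χ ⊆ ball x₀ ρ := fun x hx => by
    rw [mem_ball, dist_eq_norm]
    exact (hχt hx).2.trans_lt hbρ
  -- the vorticity in the shell
  obtain ⟨Y0, hY0⟩ := shell_bound hL.smooth_u hL.smooth_p hL.force hfin' hχs hχc hχabs hχt' hbO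
    hs0 (fun t ht x hx j => hMw t ht x (hχt hx).1 (hχt hx).2 j) hs's
  have hle : ∀ x, ψ x ^ 2 ≤ φ x ^ 2 + χ x ^ 2 := by
    intro x
    rcases le_total ‖x - x₀‖ r₁ with h | h
    · rw [hφ1 x h, hψ1 x (by linarith)]
      have := sq_nonneg (χ x)
      linarith
    · rcases le_total ‖x - x₀‖ r₃ with h' | h'
      · rw [hχ1 x h h']
        have h2 : ψ x ^ 2 ≤ 1 := pow_le_one₀ ψ.nonneg ψ.le_one
        have := sq_nonneg (φ x)
        linarith
      · rw [hψ0 x h', zero_pow two_ne_zero]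
        positivity
  obtain ⟨M', hM', hd⟩ := hdi T _ E F O w q hL φ ψ χ x₀ ρ s' M Y0 hφs φ.hasCompactSupport hψs
    ψ.hasCompactSupport hχs hχc hbO hφt hψt (fun x => by
      rw [abs_of_nonneg φ.nonneg]; exact φ.le_one)
    (fun x => by
      rcases le_total ‖x - x₀‖ r₂ with h | h
      · exact Or.inr (hψ1 x h)
      · exact Or.inl (hφ0 x h)) hle ⟨by linarith [hs's.1, hs0.1], hs's.2⟩
    (fun x => by
      rcases lt_or_ge ‖x - x₀‖ r₁ with h | h
      · left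
        intro j
        refine pd_const_near (c := 1) ?_ j
        have ho : IsOpen {y : V | ‖y - x₀‖ < r₁} := isOpen_lt (by fun_prop) continuous_const
        filter_upwards [ho.mem_nhds h] with y hy
        exact hφ1 y (le_of_lt hy)
      · rcases le_or_gt ‖x - x₀‖ r₂ with h' | h'
        · right
          exact ⟨hχ1 x h (by linarith), fun t ht j => hMw t ⟨hs's.1.trans ht.1, ht.2⟩ x
            (by linarith) (by linarith) j⟩
        · left
          intro j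
          refine pd_const_near (c := 0) ?_ j
          have ho : IsOpen {y : V | r₂ < ‖y - x₀‖} := isOpen_lt continuous_const (by fun_prop)
          filter_upwards [ho.mem_nhds h'] with y hy
          exact hφ0 y (le_of_lt hy))
    (fun t ht => hY0 t ⟨ht.1.le, ht.2⟩)
  choose! Y' hY'1 hY'2 using hd
  have hYnn : ∀ t, 0 ≤ Yf φ (cp w t) := fun t => by
    unfold Yf
    exact integral_nonneg fun x => by positivity
  rcases ode (Y := fun t => Yf φ (cp w t)) hκ hM' (fun t _ => hYnn t) hY'1 hY'2 with hA | hB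
  · -- bounded vorticity: the point is regular
    exfalso
    obtain ⟨K, s'', hs'', hK⟩ := hA
    obtain ⟨Bψ, hBψ0, hBψ⟩ := pd_bound hψs ψ.hasCompactSupport
    have hT0 : ∀ t ∈ Ioo s'' T, t ∈ Ioo 0 T := fun t ht =>
      ⟨hs0.1.trans (hs's.1.trans (hs''.1.trans ht.1)), ht.2⟩
    refine not_sing hT hE hF hS (r := r₂) (s := s'') (K := K + Y0 + 15 * Bψ ^ 2 * E ^ 2)
      (by linarith) ((ball_subset_closedBall.trans (hsub r₂ (by linarith))).trans (hbO.trans hOΩ))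
      hs''.2 (fun t ht => ?_) hsing
    have ht0 := hT0 t ht
    have hv : ∀ i, ContDiff ℝ ∞ fun y => w t y i := fun i => (js_of hL.smooth_u i).slice ht0
    have k1 := grad_bound (v := w t) hv hφs φ.hasCompactSupport hψs ψ.hasCompactSupport hχs hχc
      hBψ hle (fun x hx => hL.divfree t ht0 x (hbO (hψt hx))) (hL.en_int t ht0) (hL.en t ht0)
    have k2 : Yf φ (fun i y => w t y i) ≤ K := hK t ⟨ht.1.le, ht.2⟩
    have k3 : Yf χ (fun i y => w t y i) ≤ Y0 := hY0 t ⟨hs''.1.le.trans ht.1.le, ht.2⟩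
    have hψv : ∀ j, ContDiff ℝ ∞ (fun y => ψ y * w t y j) := fun j => hψs.mul (hv j)
    have hcψv : ∀ j, HasCompactSupport (fun y => ψ y * w t y j) := fun j =>
      ψ.hasCompactSupport.mul_right
    have hint : Integrable fun x => ∑ i, ∑ j, pd j (fun y => ψ y * w t y i) x ^ 2 :=
      integrable_finsetSum _ fun i _ => int_Dn (hψv i) (hcψv i)
    have k4 : ∫ x, ∑ i, ∑ j, pd j (fun y => ψ y * w t y i) x ^ 2 =
        ∑ i, Dn (fun y => ψ y * w t y i) := by
      unfold Dn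
      rw [integral_finsetSum]
      exact fun i _ => int_Dn (hψv i) (hcψv i)
    calc ∫⁻ y in ball x₀ r₂, ENNReal.ofReal (gsq (u t) y)
        = ∫⁻ y in ball x₀ r₂, ENNReal.ofReal
            (∑ i, ∑ j, pd j (fun z => ψ z * w t z i) y ^ 2) := by
          refine setLIntegral_congr_fun measurableSet_ball fun y hy => ?_
          have hyr : ‖y - x₀‖ < r₂ := by rwa [mem_ball, dist_eq_norm] at hy
          have hyO : y ∈ O := hbO (by rw [mem_ball, dist_eq_norm]; linarith)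
          have e : ∀ i, (fun z => ψ z * w t z i) =ᶠ[𝓝 y] fun z => u t z i := by
            intro i
            have ho : IsOpen {z : V | ‖z - x₀‖ < r₂} := isOpen_lt (by fun_prop) continuous_const
            filter_upwards [ho.mem_nhds hyr, hwu t y hyO] with z hz hz'
            rw [hψ1 z (le_of_lt hz), one_mul, hz']
          simp only [gsq]
          congr 1
          refine Finset.sum_congr rfl fun i _ => Finset.sum_congr rfl fun j _ => ?_
          rw [pd_congr (e i) j]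
      _ ≤ ∫⁻ y, ENNReal.ofReal (∑ i, ∑ j, pd j (fun z => ψ z * w t z i) y ^ 2) :=
          setLIntegral_le_lintegral _ _
      _ = ENNReal.ofReal (∑ i, Dn (fun y => ψ y * w t y i)) := by
          rw [← k4, ofReal_integral_eq_lintegral_ofReal hint
            (Eventually.of_forall fun x => by positivity)]
      _ ≤ ENNReal.ofReal (K + Y0 + 15 * Bψ ^ 2 * E ^ 2) := ENNReal.ofReal_le_ofReal (by linarith)
  · -- the rate
    obtain ⟨d, hd⟩ : ∃ d : ℝ, d = (1 / (2 * √(2 * κ) * M')) ^ 2 := ⟨_, rfl⟩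
    have hd0 : 0 < d := by rw [hd]; positivity
    have hev : Ioo (max s' (T - d)) T ∈ 𝓝[<] T :=
      Ioo_mem_nhdsLT (max_lt hs's.2 (by linarith))
    filter_upwards [hev] with t ht
    have ht1 : t ∈ Ioo s' T := ⟨(le_max_left _ _).trans_lt ht.1, ht.2⟩
    have ht2 : T - d < t := (le_max_right _ _).trans_lt ht.1
    have ht0 : t ∈ Ioo 0 T := ⟨hs0.1.trans (hs's.1.trans ht1.1), ht.2⟩
    have hB' := hB t ht1
    obtain ⟨Y, hY⟩ : ∃ Y : ℝ, Y = Yf φ (cp w t) := ⟨_, rfl⟩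
    rw [← hY] at hB'
    have hYn : 0 ≤ Y := hY ▸ hYnn t
    have hTt : 0 < T - t := by linarith [ht.2]
    have hz : 0 < √(T - t) := Real.sqrt_pos.2 hTt
    have g1 : 1 ≤ √(2 * κ) * √(T - t) * (Y + M') := by
      have e1 : (√(2 * κ) * √(T - t) * (Y + M')) ^ 2 = 2 * κ * (T - t) * (Y + M') ^ 2 := by
        rw [mul_pow, mul_pow, Real.sq_sqrt (by positivity), Real.sq_sqrt hTt.le]
      have h0 : 0 ≤ √(2 * κ) * √(T - t) * (Y + M') := by positivity
      nlinarith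
    have g2 : √(T - t) ≤ 1 / (2 * √(2 * κ) * M') := by
      rw [Real.sqrt_le_left (by positivity), ← hd]
      linarith
    have g3 : √(T - t) * (2 * √(2 * κ) * M') ≤ 1 := by
      rwa [le_div_iff₀ (by positivity)] at g2
    have g4 : 1 / (2 * √(2 * κ)) / √(T - t) ≤ Y := by
      rw [div_div, div_le_iff₀ (by positivity)]
      nlinarith
    refine (ENNReal.ofReal_le_ofReal g4).trans ?_
    have hv : ∀ i, ContDiff ℝ ∞ (cp w t i) := fun i => (js_of hL.smooth_u i).slice ht0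
    have hint := int_sum2 (v := cp w t) hφs.continuous φ.hasCompactSupport hv
    rw [hY]
    unfold Yf
    rw [ofReal_integral_eq_lintegral_ofReal hint
      (Eventually.of_forall fun x => by positivity)]
    rw [← lintegral_indicator measurableSet_ball]
    refine lintegral_mono fun x => ?_
    by_cases hx : x ∈ ball x₀ ρ
    · rw [indicator_of_mem hx]
      refine ENNReal.ofReal_le_ofReal ?_
      rw [← c2_congr (hwu t x (hbO hx))]
      unfold c2
      refine Finset.sum_le_sum fun i _ => Finset.sum_le_sum fun j _ => ?_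
      rw [mul_pow]
      exact mul_le_of_le_one_left (sq_nonneg _) (pow_le_one₀ φ.nonneg φ.le_one)
    · rw [indicator_of_notMem hx]
      have : φ x = 0 := image_eq_zero_of_notMem_tsupport fun h => hx (hφt h)
      simp [this]

end Pool.Agent.Q62.NSL
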