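import Pool.Agent.Q62.NSL.En
import Pool.Agent.W335.MD.CT
import Pool.Agent.W333.MD.PCONT

/-!
The vorticity stays bounded in `L²` where the velocity is bounded.
-/

set_option autoImplicit false

open MeasureTheory Set Metric Filter Topology
open scoped ContDiff ENNReal

namespace Pool.Agent.Q62.NSL

open H459R3.NS W221.NS Pool.Agent.W583.MD

/-- `Σ (∂ₐ v_b - ∂_b vₐ)² ≤ 4 |∇v|²` -/
theorem crl_le_gsq (v : V → V) (x : V) :
    ∑ a, ∑ b, crl (fun i y => v y i) a b x ^ 2 ≤ 4 * gsq v x := by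
  have h : ∀ a b, crl (fun i y => v y i) a b x ^ 2 ≤
      2 * pd a (fun y => v y b) x ^ 2 + 2 * pd b (fun y => v y a) x ^ 2 := by
    intro a b
    unfold crl
    nlinarith [sq_nonneg (pd a (fun y => v y b) x + pd b (fun y => v y a) x)]
  refine (Finset.sum_le_sum fun a _ => Finset.sum_le_sum fun b _ => h a b).trans (le_of_eq ?_)
  unfold gsq
  simp only [Fin.sum_univ_three]
  ring

/-- Growth of a function with a bound for the derivative. -/
theorem grow {Y Y' h : ℝ → ℝ} {s T : ℝ} (hY : ∀ t ∈ Ioo s T, HasDerivAt Y (Y' t) t)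
    (hle : ∀ t ∈ Ioo s T, Y' t ≤ h t) (hh : ContinuousOn h (Ioo s T)) {a b : ℝ}
    (ha : a ∈ Ioo s T) (hb : b ∈ Ioo s T) (hab : a ≤ b) : Y b - Y a ≤ ∫ t in a..b, h t := by
  have hsub : Icc a b ⊆ Ioo s T := fun t ht => ⟨ha.1.trans_le ht.1, ht.2.trans_lt hb.2⟩
  refine intervalIntegral.sub_le_integral_of_hasDeriv_right_of_le hab
    (fun t ht => (hY t (hsub ht)).continuousAt.continuousWithinAt)
    (fun t ht => (hY t (hsub (Ioo_subset_Icc_self ht))).hasDerivWithinAt)
    ((hh.mono hsub).integrableOn_compact isCompact_Icc) fun t ht => ?_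
  exact hle t (hsub (Ioo_subset_Icc_self ht))

section

variable {T F : ℝ} {O : Set V} {u : ℝ → V → V} {p : ℝ → V → ℝ} {φ : V → ℝ}

/-- the dissipation in a ball -/
noncomputable def gb (u : ℝ → V → V) (a : V) (ρ : ℝ) (t : ℝ) : ℝ := ∫ x in ball a ρ, gsq (u t) x

theorem gsq_nn (v : V → V) (x : V) : 0 ≤ gsq v x :=
  Finset.sum_nonneg fun _ _ => Finset.sum_nonneg fun _ _ => sq_nonneg _

theorem gb_nonneg (u : ℝ → V → V) (a : V) (ρ t : ℝ) : 0 ≤ gb u a ρ t :=
  integral_nonneg fun x => gsq_nn _ x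

theorem gb_cont (hu : ContDiffOn ℝ ∞ (fun z : ℝ × V => u z.1 z.2) (Ioo 0 T ×ˢ univ)) (a : V)
    (ρ : ℝ) : ContinuousOn (gb u a ρ) (Ioo 0 T) :=
  Pool.Agent.W333.MD.t_PCONT 0 T (fun t x => gsq (u t) x) a ρ (W335.MD.gsq_cont hu)

theorem js_of (hu : ContDiffOn ℝ ∞ (fun z : ℝ × V => u z.1 z.2) (Ioo 0 T ×ˢ univ)) (i : Fin 3) :
    Js 0 T (fun t x => u t x i) := W335.MD.comp_smooth hu i

theorem gsq_int (hu : ContDiffOn ℝ ∞ (fun z : ℝ × V => u z.1 z.2) (Ioo 0 T ×ˢ univ)) {t : ℝ}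
    (ht : t ∈ Ioo 0 T) (a : V) (ρ : ℝ) : IntegrableOn (gsq (u t)) (ball a ρ) := by
  refine Pool.Agent.W440.MD.int_ball ?_ a ρ
  have h := fun i => (js_of hu i).slice ht
  unfold gsq
  exact continuous_finsetSum _ fun i _ => continuous_finsetSum _ fun j _ =>
    (sm_pd (h i) j).continuous.pow 2

/-- the dissipation in time -/
theorem gb_time (hu : ContDiffOn ℝ ∞ (fun z : ℝ × V => u z.1 z.2) (Ioo 0 T ×ˢ univ))
    {a : V} {ρ : ℝ} (hO : ball a ρ ⊆ O)
    (hfin : ∫⁻ t in Ioo 0 T, ∫⁻ y in O, ENNReal.ofReal (gsq (u t) y) ≠ ⊤) {s t : ℝ}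
    (hs : s ∈ Ioo 0 T) (ht : t ∈ Ioo 0 T) (hst : s ≤ t) :
    ∫ τ in s..t, gb u a ρ τ ≤
      (∫⁻ t in Ioo 0 T, ∫⁻ y in O, ENNReal.ofReal (gsq (u t) y)).toReal := by
  have hsub : Ioc s t ⊆ Ioo 0 T := fun τ hτ => ⟨hs.1.trans hτ.1, hτ.2.trans_lt ht.2⟩
  have hsub' : Icc s t ⊆ Ioo 0 T := fun τ hτ => ⟨hs.1.trans_le hτ.1, hτ.2.trans_lt ht.2⟩
  have hi : IntegrableOn (gb u a ρ) (Ioc s t) :=
    (((gb_cont hu a ρ).mono hsub').integrableOn_compact isCompact_Icc).mono_set
      Ioc_subset_Icc_self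
  rw [intervalIntegral.integral_of_le hst, integral_eq_lintegral_of_nonneg_ae
    (Eventually.of_forall fun τ => gb_nonneg u a ρ τ) hi.aestronglyMeasurable]
  refine ENNReal.toReal_mono hfin ?_
  calc ∫⁻ τ in Ioc s t, ENNReal.ofReal (gb u a ρ τ)
      ≤ ∫⁻ τ in Ioc s t, ∫⁻ y in O, ENNReal.ofReal (gsq (u τ) y) := by
        refine setLIntegral_mono' measurableSet_Ioc fun τ hτ => ?_
        unfold gb
        rw [ofReal_integral_eq_lintegral_ofReal (gsq_int hu (hsub hτ) a ρ)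
          (Eventually.of_forall fun x => gsq_nn _ x)]
        exact lintegral_mono_set hO
    _ ≤ _ := lintegral_mono_set hsub

/-- The vorticity in a region where the velocity is bounded. -/
theorem shell_bound (hu : ContDiffOn ℝ ∞ (fun z : ℝ × V => u z.1 z.2) (Ioo 0 T ×ˢ univ))
    (hp : ContDiffOn ℝ ∞ (fun z : ℝ × V => p z.1 z.2) (Ioo 0 T ×ˢ univ))
    (hF : ∀ t ∈ Ioo 0 T, Bd3 F O (res u p t))
    (hfin : ∫⁻ t in Ioo 0 T, ∫⁻ y in O, ENNReal.ofReal (gsq (u t) y) ≠ ⊤)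
    (hφ : ContDiff ℝ ∞ φ) (hc : HasCompactSupport φ) (h1 : ∀ x, |φ x| ≤ 1) {a : V} {ρ : ℝ}
    (hb : tsupport φ ⊆ ball a ρ) (hO : ball a ρ ⊆ O) {s M : ℝ} (hs : s ∈ Ioo 0 T)
    (hM : ∀ t ∈ Ioo s T, ∀ x ∈ tsupport φ, ∀ j, |u t x j| ≤ M) {s' : ℝ} (hs' : s' ∈ Ioo s T) :
    ∃ Y0 : ℝ, ∀ t ∈ Ico s' T, Yf φ (cp u t) ≤ Y0 := by
  have hui := js_of hu
  have hTs : Ioo s T ⊆ Ioo 0 T := Ioo_subset_Ioo_left hs.1.le
  -- a bound for the derivatives of the cut-off function
  have hB : ∃ B : ℝ, 0 ≤ B ∧ ∀ (i : Fin 3) (x : V), |pd i φ x| ≤ B := by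
    have h1 : ∀ i : Fin 3, ∃ B : ℝ, ∀ x : V, ‖pd i φ x‖ ≤ B := fun i =>
      (sm_pd hφ i).continuous.bounded_above_of_compact_support (cs_pd hc i)
    choose B hB using h1
    refine ⟨∑ i, |B i|, Finset.sum_nonneg fun i _ => abs_nonneg _, fun i x => ?_⟩
    have h2 := hB i x
    rw [Real.norm_eq_abs] at h2
    exact (h2.trans (le_abs_self _)).trans
      (Finset.single_le_sum (f := fun i => |B i|) (fun j _ => abs_nonneg _) (Finset.mem_univ i))
  obtain ⟨B, hB0, hB⟩ := hB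
  obtain ⟨C, hC⟩ : ∃ C : ℝ, C = 6 * B ^ 2 + 18 * |M| ^ 2 + 12 * B * |M| + 2 := ⟨_, rfl⟩
  have hC0 : 0 ≤ C := by rw [hC]; positivity
  have hvol : ∀ c : ℝ, ∫ _ in ball a ρ, c = volume.real (ball a ρ) * c := fun c => by
    rw [setIntegral_const, smul_eq_mul]
  -- the bound for the derivative
  have hle : ∀ t ∈ Ioo s T, ∫ x, Big φ (cp u t) (Rf (cp u t) (tu u t) (p t)) x ≤
      4 * C * gb u a ρ t + volume.real (ball a ρ) * (18 * F ^ 2) := by
    intro t ht
    have ht0 := hTs ht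
    have hv : ∀ i, ContDiff ℝ ∞ (cp u t i) := fun i => (hui i).slice ht0
    have hτ : ∀ i, ContDiff ℝ ∞ (tu u t i) := fun i => (hui i).td.slice ht0
    have hq : ContDiff ℝ ∞ (p t) := slice hp ht0
    have hBi := (Big_int hφ hc hv hτ hq).1
    have hz : ∀ x ∉ tsupport φ, Big φ (cp u t) (Rf (cp u t) (tu u t) (p t)) x = 0 := by
      intro x hx
      have e0 : φ x = 0 := image_eq_zero_of_notMem_tsupport hx
      have e1 : ∀ j, pd j φ x = 0 := fun j => by
        have : x ∉ tsupport (pd j φ) := fun h => hx (tsupport_fderiv_apply_subset ℝ _ h)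
        exact image_eq_zero_of_notMem_tsupport this
      have e2 : ∀ a b j, pd j (fun y => φ y * crl (cp u t) a b y) x = 0 := fun a b j => by
        rw [pd_mul' hφ (sm_crl hv a b), e0, e1]
        ring
      unfold Big
      simp [e0, e1, e2]
    have hg := gsq_int hu ht0 a ρ
    calc ∫ x, Big φ (cp u t) (Rf (cp u t) (tu u t) (p t)) x
        = ∫ x in ball a ρ, Big φ (cp u t) (Rf (cp u t) (tu u t) (p t)) x := by
          rw [setIntegral_eq_integral_of_forall_compl_eq_zero]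
          exact fun x hx => hz x fun h => hx (hb h)
      _ ≤ ∫ x in ball a ρ, (4 * C * gsq (u t) x + 18 * F ^ 2) := by
          refine setIntegral_mono_on hBi.integrableOn
            ((hg.const_mul _).add (integrableOn_const (measure_ball_lt_top.ne)))
            measurableSet_ball fun x hx => ?_
          by_cases hxs : x ∈ tsupport φ
          · have k1 := bound_a (w := fun a b => crl (cp u t) a b x)
              (r := fun a b => pd a (Rf (cp u t) (tu u t) (p t) b) x)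
              (dW := fun a b j => pd j (fun y => φ y * crl (cp u t) a b y) x)
              (dφ := fun j => pd j φ x) (vv := fun j => u t x j) (f := φ x) (M := |M|)
              (B := B) (F := F) (fun j => hB j x)
              (fun j => (hM t ht x hxs j).trans (le_abs_self M)) (h1 x)
              (fun a b => (hF t ht0 x (hO hx) b).2.1 a)
            have k2 := crl_le_gsq (u t) x
            refine k1.trans ?_
            rw [← hC]
            have k3 := mul_le_mul_of_nonneg_left k2 hC0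
            have k4 : C * ∑ a, ∑ b, crl (cp u t) a b x ^ 2 ≤ C * (4 * gsq (u t) x) := k3
            linarith
          · rw [hz x hxs]
            have := gsq_nn (u t) x
            positivity
      _ = _ := by
          rw [integral_add (hg.const_mul _) (integrableOn_const (measure_ball_lt_top.ne)),
            integral_const_mul, hvol]
          rfl
  have hcont : ContinuousOn (fun t => 4 * C * gb u a ρ t + volume.real (ball a ρ) * (18 * F ^ 2))
      (Ioo s T) := (continuousOn_const.mul ((gb_cont hu a ρ).mono hTs)).add continuousOn_const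
  refine ⟨Yf φ (cp u s') + (4 * C *
    (∫⁻ t in Ioo 0 T, ∫⁻ y in O, ENNReal.ofReal (gsq (u t) y)).toReal +
    T * (volume.real (ball a ρ) * (18 * F ^ 2))), fun t ht => ?_⟩
  have ht' : t ∈ Ioo s T := ⟨hs'.1.trans_le ht.1, ht.2⟩
  have k := grow (Y := fun t => Yf φ (cp u t)) (fun t ht => Y_hd hui hp hφ hc (hTs ht)) hle hcont
    hs' ht' ht.1
  have hci : IntervalIntegrable (fun t => 4 * C * gb u a ρ t) volume s' t := by
    apply ContinuousOn.intervalIntegrable
    rw [uIcc_of_le ht.1]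
    exact continuousOn_const.mul ((gb_cont hu a ρ).mono fun τ hτ =>
      hTs ⟨hs'.1.trans_le hτ.1, hτ.2.trans_lt ht.2⟩)
  have e1 : ∫ τ in s'..t, (4 * C * gb u a ρ τ + volume.real (ball a ρ) * (18 * F ^ 2)) =
      4 * C * (∫ τ in s'..t, gb u a ρ τ) + (t - s') * (volume.real (ball a ρ) * (18 * F ^ 2)) := by
    rw [intervalIntegral.integral_add hci intervalIntegrable_const,
      intervalIntegral.integral_const_mul, intervalIntegral.integral_const, smul_eq_mul]
  rw [e1] at k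
  have k2 := gb_time hu hO hfin (hTs hs') (hTs ht') ht.1
  have k3 : 4 * C * (∫ τ in s'..t, gb u a ρ τ) ≤ 4 * C *
    (∫⁻ t in Ioo 0 T, ∫⁻ y in O, ENNReal.ofReal (gsq (u t) y)).toReal :=
    mul_le_mul_of_nonneg_left k2 (by positivity)
  have k4 : (t - s') * (volume.real (ball a ρ) * (18 * F ^ 2)) ≤
      T * (volume.real (ball a ρ) * (18 * F ^ 2)) := by
    refine mul_le_mul_of_nonneg_right ?_ (by positivity)
    linarith [ht.2, (hTs hs').1]
  linarith

end

end Pool.Agent.Q62.NSL
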