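import Pool.Agent.Q62.NSL.Calc
import Pool.Agent.W221.NS.Stm4

/-!
The vorticity equation and the energy identity for the vorticity with a cut-off.
-/

set_option autoImplicit false

open MeasureTheory Set Metric Filter Topology
open scoped ContDiff

namespace Pool.Agent.Q62.NSL

open H459R3.NS W221.NS Pool.Agent.W583.MD

/-- The matrix `∂ₐ v_b - ∂_b vₐ`. -/
noncomputable def crl (v : Fin 3 → V → ℝ) (a b : Fin 3) (x : V) : ℝ := pd a (v b) x - pd b (v a) x

theorem crl_anti (v : Fin 3 → V → ℝ) (a b : Fin 3) (x : V) : crl v b a x = -crl v a b x := by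
  unfold crl; ring

theorem sm_crl {v : Fin 3 → V → ℝ} (hv : ∀ i, ContDiff ℝ ∞ (v i)) (a b : Fin 3) :
    ContDiff ℝ ∞ (crl v a b) := (sm_pd (hv b) a).sub (sm_pd (hv a) b)

/-- the field `Σ_j v_j (∂_j v_b - ∂_b v_j)` -/
noncomputable def Bf (v : Fin 3 → V → ℝ) (b : Fin 3) (x : V) : ℝ := ∑ j, v j x * crl v j b x

theorem sm_Bf {v : Fin 3 → V → ℝ} (hv : ∀ i, ContDiff ℝ ∞ (v i)) (b : Fin 3) :
    ContDiff ℝ ∞ (Bf v b) := ContDiff.sum fun j _ => (hv j).mul (sm_crl hv j b)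

/-- the residual at one time -/
noncomputable def Rf (v τ : Fin 3 → V → ℝ) (q : V → ℝ) (b : Fin 3) (x : V) : ℝ :=
  τ b x + (∑ j, v j x * pd j (v b) x) - lap (v b) x + pd b q x

theorem sm_Rf {v τ : Fin 3 → V → ℝ} {q : V → ℝ} (hv : ∀ i, ContDiff ℝ ∞ (v i))
    (hτ : ∀ i, ContDiff ℝ ∞ (τ i)) (hq : ContDiff ℝ ∞ q) (b : Fin 3) :
    ContDiff ℝ ∞ (Rf v τ q b) :=
  (((hτ b).add (ContDiff.sum fun j _ => (hv j).mul (sm_pd (hv b) j))).sub (sm_lap (hv b))).add
    (sm_pd hq b)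

/-- The vorticity equation. -/
theorem vort {v τ : Fin 3 → V → ℝ} {q : V → ℝ} (hv : ∀ i, ContDiff ℝ ∞ (v i))
    (hτ : ∀ i, ContDiff ℝ ∞ (τ i)) (hq : ContDiff ℝ ∞ q) (a b : Fin 3) (x : V) :
    crl τ a b x = lap (crl v a b) x - (pd a (Bf v b) x - pd b (Bf v a) x)
      + crl (Rf v τ q) a b x := by
  -- the gradient part
  obtain ⟨Q, hQ⟩ : ∃ Q : V → ℝ, Q = fun y => q y + ∑ j, v j y * v j y * (1 / 2) := ⟨_, rfl⟩
  have hQs : ContDiff ℝ ∞ Q := by
    rw [hQ]
    exact hq.add (ContDiff.sum fun j _ => ((hv j).mul (hv j)).mul contDiff_const)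
  have hQd : ∀ b y, pd b Q y = pd b q y + ∑ j, v j y * pd b (v j) y := by
    intro b y
    rw [hQ, pd_add' hq (ContDiff.sum fun j _ => ((hv j).mul (hv j)).mul contDiff_const),
      pd_sum' (fun j _ => ((hv j).mul (hv j)).mul contDiff_const)]
    congr 1
    refine Finset.sum_congr rfl fun j _ => ?_
    rw [pd_mul' ((hv j).mul (hv j)) contDiff_const, pd_mul' (hv j) (hv j)]
    have : pd b (fun _ : V => (1 / 2 : ℝ)) y = 0 := by
      unfold pd; simp
    rw [this]
    ring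
  have hτe : ∀ b, τ b = fun y => ((Rf v τ q b y - Bf v b y) + lap (v b) y) - pd b Q y := by
    intro b
    funext y
    rw [hQd]
    unfold Rf Bf crl
    simp only [Fin.sum_univ_three]
    ring
  have hd : ∀ a b, pd a (τ b) x = pd a (Rf v τ q b) x - pd a (Bf v b) x + lap (pd a (v b)) x
      - pd a (pd b Q) x := by
    intro a b
    have h1 := sm_Rf hv hτ hq b
    have h2 := sm_Bf hv b
    have h3 := sm_lap (hv b)
    have h4 := sm_pd hQs b
    calc pd a (τ b) x = pd a (fun y => ((Rf v τ q b y - Bf v b y) + lap (v b) y) - pd b Q y) x := by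
          rw [← hτe b]
      _ = _ := by
          rw [pd_sub' ((h1.sub h2).add h3) h4, pd_add' (h1.sub h2) h3, pd_sub' h1 h2,
            pd_lap (hv b) a]
  have hl : lap (crl v a b) x = lap (pd a (v b)) x - lap (pd b (v a)) x := by
    unfold lap
    rw [← Finset.sum_sub_distrib]
    refine Finset.sum_congr rfl fun j _ => ?_
    have e1 : pd j (crl v a b) = fun y => pd j (pd a (v b)) y - pd j (pd b (v a)) y :=
      funext fun y => pd_sub' (sm_pd (hv b) a) (sm_pd (hv a) b) j y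
    rw [e1, pd_sub' (sm_pd (sm_pd (hv b) a) j) (sm_pd (sm_pd (hv a) b) j)]
  unfold crl at hl ⊢
  rw [hd a b, hd b a, hl, pd_symm hQs a b]
  ring

theorem antis {W X : Fin 3 → Fin 3 → ℝ} (h : ∀ a b, W b a = -W a b) :
    ∑ a, ∑ b, W a b * (X a b - X b a) = 2 * ∑ a, ∑ b, W a b * X a b := by
  have h1 : ∑ a, ∑ b, W a b * X b a = -∑ a, ∑ b, W a b * X a b := by
    rw [Finset.sum_comm, ← Finset.sum_neg_distrib]
    refine Finset.sum_congr rfl fun a _ => ?_
    rw [← Finset.sum_neg_distrib]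
    refine Finset.sum_congr rfl fun b _ => ?_
    rw [h a b]
    ring
  simp only [mul_sub, Finset.sum_sub_distrib]
  rw [h1]
  ring

/-- The integrand of the energy identity. -/
noncomputable def Big (φ : V → ℝ) (v R : Fin 3 → V → ℝ) (x : V) : ℝ :=
  (∑ a, ∑ b, ∑ j, (-2 * pd j (fun y => φ y * crl v a b y) x ^ 2
    + 2 * (crl v a b x ^ 2 * pd j φ x ^ 2)))
  + (∑ a, ∑ b, ∑ j, (4 * (pd a (fun y => φ y * crl v a b y) x * (v j x * (φ x * crl v j b x)))
    + 4 * (pd a φ x * crl v a b x * (v j x * (φ x * crl v j b x)))))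
  + ∑ a, ∑ b, 4 * (φ x * crl v a b x * (φ x * pd a (R b) x))

/-- the total derivative in the energy identity -/
theorem Z_tot {φ : V → ℝ} {v : Fin 3 → V → ℝ} (hφ : ContDiff ℝ ∞ φ) (hc : HasCompactSupport φ)
    (hv : ∀ i, ContDiff ℝ ∞ (v i)) :
    Z (fun x => ∑ a, ∑ b, ((∑ j, 2 * pd j (fun y => φ y * (φ y * crl v a b y)
      * pd j (crl v a b) y) x) - 4 * pd a (fun y => φ y * (φ y * crl v a b y) * Bf v b y) x)) := by
  refine Z.sum fun a => Z.sum fun b => Z.sub (Z.sum fun j => Z.smul (Z_pd ?_ ?_ j) 2)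
    (Z.smul (Z_pd ?_ ?_ a) 4)
  · exact (hφ.mul (hφ.mul (sm_crl hv a b))).mul (sm_pd (sm_crl hv a b) j)
  · exact (hc.mul_right (f' := fun y => φ y * crl v a b y)).mul_right
  · exact (hφ.mul (hφ.mul (sm_crl hv a b))).mul (sm_Bf hv b)
  · exact (hc.mul_right (f' := fun y => φ y * crl v a b y)).mul_right

/-- the pointwise identity -/
theorem pointI {φ : V → ℝ} {v τ : Fin 3 → V → ℝ} {q : V → ℝ} (hφ : ContDiff ℝ ∞ φ)
    (hv : ∀ i, ContDiff ℝ ∞ (v i)) (hτ : ∀ i, ContDiff ℝ ∞ (τ i)) (hq : ContDiff ℝ ∞ q) (x : V) :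
    ∑ a, ∑ b, 2 * (φ x * crl v a b x) * (φ x * crl τ a b x) =
      Big φ v (Rf v τ q) x + ∑ a, ∑ b, ((∑ j, 2 * pd j (fun y => φ y * (φ y * crl v a b y)
      * pd j (crl v a b) y) x) - 4 * pd a (fun y => φ y * (φ y * crl v a b y) * Bf v b y) x) := by
  have hw := fun a b => sm_crl hv a b
  have hW : ∀ a b, ContDiff ℝ ∞ (fun y => φ y * crl v a b y) := fun a b => hφ.mul (hw a b)
  have dW : ∀ a b j, pd j (fun y => φ y * crl v a b y) x =
      φ x * pd j (crl v a b) x + pd j φ x * crl v a b x := fun a b j => pd_mul' hφ (hw a b) j x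
  have e1 : ∀ a b j, pd j (fun y => φ y * (φ y * crl v a b y) * pd j (crl v a b) y) x =
      φ x * (φ x * crl v a b x) * pd j (pd j (crl v a b)) x
      + (φ x * (φ x * pd j (crl v a b) x + pd j φ x * crl v a b x)
        + pd j φ x * (φ x * crl v a b x)) * pd j (crl v a b) x := by
    intro a b j
    rw [pd_mul' (hφ.mul (hW a b)) (sm_pd (hw a b) j), pd_mul' hφ (hW a b), dW]
  have e2 : ∀ a b, pd a (fun y => φ y * (φ y * crl v a b y) * Bf v b y) x =
      φ x * (φ x * crl v a b x) * pd a (Bf v b) x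
      + (φ x * (φ x * pd a (crl v a b) x + pd a φ x * crl v a b x)
        + pd a φ x * (φ x * crl v a b x)) * Bf v b x := by
    intro a b
    rw [pd_mul' (hφ.mul (hW a b)) (sm_Bf hv b), pd_mul' hφ (hW a b), dW]
  -- the left side
  have hL : ∑ a, ∑ b, 2 * (φ x * crl v a b x) * (φ x * crl τ a b x) =
      (∑ a, ∑ b, ∑ j, 2 * (φ x * (φ x * crl v a b x)) * pd j (pd j (crl v a b)) x)
      - 2 * (∑ a, ∑ b, 2 * (φ x * (φ x * crl v a b x)) * pd a (Bf v b) x)
      + 2 * (∑ a, ∑ b, 2 * (φ x * (φ x * crl v a b x)) * pd a (Rf v τ q b) x) := by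
    have hA1 := antis (W := fun a b => 2 * (φ x * (φ x * crl v a b x)))
      (X := fun a b => pd a (Bf v b) x) (fun a b => by rw [crl_anti]; ring)
    have hA2 := antis (W := fun a b => 2 * (φ x * (φ x * crl v a b x)))
      (X := fun a b => pd a (Rf v τ q b) x) (fun a b => by rw [crl_anti]; ring)
    rw [← hA1, ← hA2, ← Finset.sum_sub_distrib, ← Finset.sum_add_distrib]
    refine Finset.sum_congr rfl fun a _ => ?_
    rw [← Finset.sum_sub_distrib, ← Finset.sum_add_distrib]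
    refine Finset.sum_congr rfl fun b _ => ?_
    rw [vort hv hτ hq a b x, ← Finset.mul_sum]
    unfold lap
    unfold crl
    ring
  rw [hL]
  unfold Big
  simp only [Finset.mul_sum]
  rw [← Finset.sum_sub_distrib, ← Finset.sum_add_distrib, ← Finset.sum_add_distrib,
    ← Finset.sum_add_distrib, ← Finset.sum_add_distrib]
  refine Finset.sum_congr rfl fun a _ => ?_
  rw [← Finset.sum_sub_distrib, ← Finset.sum_add_distrib, ← Finset.sum_add_distrib,
    ← Finset.sum_add_distrib, ← Finset.sum_add_distrib]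
  refine Finset.sum_congr rfl fun b _ => ?_
  rw [e2]
  simp only [e1, dW]
  unfold Bf
  simp only [Fin.sum_univ_three]
  ring

end Pool.Agent.Q62.NSL
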